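import Pool.Agent.MP_09d684_lc.Defs

namespace Pool.Agent.MP_09d684_lc.Tr

open ZFSet

universe u

/-- A bijection from the finite sequences of natural numbers onto the natural numbers. -/
def code (s : List ℕ) : ℕ := s.foldl (fun c a => Nat.pair c a + 1) 0

/-- The finite sequences whose codes belong to `A`. -/
def nodes (A : ZFSet.{u}) : Set (List ℕ) := {s | nat (code s) ∈ A}

/-- The Fubini power of `Fin` along the tree above the node `s`, where `T` is the set of inner
nodes: `A` is null above a leaf that is not in `A`, and above an inner node if it is null above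
all but finitely many of its children. -/
inductive Null (T A : Set (List ℕ)) : List ℕ → Prop
  | leaf {s : List ℕ} : s ∉ T → s ∉ A → Null T A s
  | node {s : List ℕ} (N : ℕ) : s ∈ T → (∀ n, N ≤ n → Null T A (s ++ [n])) → Null T A s

/-- The conditions of the product: the sets of `M` that are not null above any root `[n]`. -/
def Cond (M : Set ZFSet.{u}) (T : Set (List ℕ)) : Set ZFSet.{u} :=
  {A | A ∈ M ∧ A ⊆ omega ∧ ∀ n, ¬ Null T (nodes A) [n]}

/-- Inclusion modulo the ideal in every factor. -/
def Le (T : Set (List ℕ)) (A B : ZFSet.{u}) : Prop := ∀ n, Null T (nodes A \ nodes B) [n]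

/-- `G` is a filter of conditions that is generic over `M`. -/
structure Generic (M : Set ZFSet.{u}) (T : Set (List ℕ)) (G : Set ZFSet.{u}) : Prop where
  sub : G ⊆ Cond M T
  ne : G.Nonempty
  up : ∀ p ∈ G, ∀ q ∈ Cond M T, Le T p q → q ∈ G
  dir : ∀ p ∈ G, ∀ q ∈ G, ∃ r ∈ G, Le T r p ∧ Le T r q
  meets : ∀ D ∈ M, (∀ p ∈ Cond M T, ∃ q ∈ D, q ∈ Cond M T ∧ Le T q p) → ∃ p ∈ G, p ∈ D

end Pool.Agent.MP_09d684_lc.Tr
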