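import Pool.Agent.MP_09d684_lc.Tr.Lu

/-! Forcing notions that are projections of the countable power of `P(ω)/Fin`. -/

namespace Pool.Agent.MP_09d684_lc

open ZFSet

universe u v w

namespace Mdl.Pw

variable {g : Mdl.{u}} {G : Set ZFSet.{u}}

open Cd

/-- A generic filter for a projection of the power, pulled back along the projection. -/
structure PJ (g : Mdl.{u}) (G : Set ZFSet.{u}) where
  le : g.Rs → g.Rs → Prop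
  bl : g.Rs → g.U → Prop
  gg : g.Rs → Prop
  tm_le : g.Tm fun z : g.Rs × g.Rs => le z.1 z.2
  tm_bl : g.Tm fun z : g.Rs × g.U => bl z.1 z.2
  trans : ∀ a b c, le a b → le b c → le a c
  of_sle : ∀ a b, SLe a b → le a b
  proj : ∀ S S', Pos S → Pos S' → le S' S → ∃ S'', Pos S'' ∧ SLe S'' S ∧ le S'' S'
  dense : ∀ D : g.Rs → Prop, g.Tm D → (∀ S, Pos S → ∃ S', Pos S' ∧ le S' S ∧ D S') →
    ∃ S, (Pos S ∧ gg S) ∧ D S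
  dir : ∀ S S', Pos S ∧ gg S → Pos S' ∧ gg S' → ∃ S'', (Pos S'' ∧ gg S'') ∧ le S'' S ∧ le S'' S'
  bl_mono : ∀ S S' p, bl S p → le S' S → bl S' p
  mem : ∀ p : g.U, p.1 ∈ G ↔ ∃ S, (Pos S ∧ gg S) ∧ bl S p
  ne : ∃ t : g.U, t.1 ∈ G

def SL (P : PJ g G) (S S' : g.Rs) : Prop := P.le S S'

def FB (P : PJ g G) (S : g.Rs) (p : g.U) : Prop := P.bl S p

def GG (P : PJ g G) (S : g.Rs) : Prop := Pos S ∧ P.gg S

variable {P : PJ g G}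

@[fun_prop] theorem tm_SL {Γ : Type*} [Cd g Γ] {S S' : Γ → g.Rs} (h : g.Tm S) (h' : g.Tm S') :
    g.Tm fun x => SL P (S x) (S' x) := P.tm_le.comp (h.pair h')

@[fun_prop] theorem tm_FB {Γ : Type*} [Cd g Γ] {S : Γ → g.Rs} {p : Γ → g.U} (h : g.Tm S)
    (h' : g.Tm p) : g.Tm fun x => FB P (S x) (p x) := P.tm_bl.comp (h.pair h')

theorem SL.trans {a b c : g.Rs} (h : SL P a b) (h' : SL P b c) : SL P a c := P.trans _ _ _ h h'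

theorem sl_of_forall {S S' : g.Rs} (h : ∀ p, S p → S' p) : SL P S S' :=
  P.of_sle _ _ (sle_of_forall h)

theorem SL.refl (P : PJ g G) (S : g.Rs) : SL P S S := sl_of_forall fun _ h => h

theorem sl_of_sub {y y' : g.Yy} (h : Sub y' y) : SL P (rng y') (rng y) :=
  P.of_sle _ _ (sle_of_sub h)

theorem below_of_sl {y : g.Yy} {S : g.Rs} (hy : Val y) (h : Pos S) (h' : SL P S (rng y)) (k : ℕ) :
    ∃ y', Below (ini y k) y' y ∧ SL P (rng y') S := by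
  obtain ⟨S'', h₁, h₂, h₃⟩ := P.proj _ _ (pos_rng hy) h h'
  obtain ⟨y', h₄, h₅⟩ := below_of_pos hy h₁ h₂ k
  exact ⟨y', h₄, P.trans _ _ _ (P.of_sle _ _ h₅) h₃⟩

theorem FB.mono {S S' : g.Rs} {p : g.U} (h : FB P S p) (h' : SL P S' S) : FB P S' p :=
  P.bl_mono _ _ _ h h'

theorem gg_dense (P : PJ g G) {D : g.Rs → Prop} (hD : g.Tm D)
    (hd : ∀ S, Pos S → ∃ S', Pos S' ∧ SL P S' S ∧ D S') : ∃ S, GG P S ∧ D S := P.dense D hD hd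

theorem gg_dir {S S' : g.Rs} (h : GG P S) (h' : GG P S') :
    ∃ S'', GG P S'' ∧ SL P S'' S ∧ SL P S'' S' := P.dir _ _ h h'

theorem mem_gen (P : PJ g G) {p : g.U} : p.1 ∈ G ↔ ∃ S, GG P S ∧ FB P S p := P.mem p

theorem sub_ext (P : PJ g G) : g.M ⊆ Ext g.M G := by
  intro a ha
  obtain ⟨t, ht⟩ := P.ne
  exact ⟨_, (chk t ⟨a, ha⟩).2, val_chk ht ⟨a, ha⟩⟩

theorem gg_below {S₀ : g.Rs} (h₀ : GG P S₀) {D : g.Rs → Prop} (hD : g.Tm D)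
    (hd : ∀ S, Pos S → SL P S S₀ → ∃ S', Pos S' ∧ SL P S' S ∧ D S') : ∃ S, GG P S ∧ D S := by
  obtain ⟨S, hS, h | h⟩ := gg_dense P
    (D := fun S => D S ∨ ∀ S', Pos S' → SL P S' S → ¬ SL P S' S₀) (by fun_prop) fun S hS => by
      by_cases h : ∃ S', Pos S' ∧ SL P S' S ∧ SL P S' S₀
      · obtain ⟨S', h₁, h₂, h₃⟩ := h
        obtain ⟨S'', h₄, h₅, h₆⟩ := hd S' h₁ h₃
        exact ⟨S'', h₄, h₅.trans h₂, Or.inl h₆⟩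
      · exact ⟨S, hS, SL.refl P S, Or.inr fun S' h₁ h₂ h₃ => h ⟨S', h₁, h₂, h₃⟩⟩
  · exact ⟨S, hS, h⟩
  · obtain ⟨S', h₁, h₂, h₃⟩ := gg_dir hS h₀
    exact absurd h₃ (h S' h₁.1 h₂)

/-- One step in the definition of the forcing relation for equality with a ground model set. -/
def FStep (P : PJ g G) (H : g.Rs → g.U → g.U → Prop) (S : g.Rs) (ρ a : g.U) : Prop :=
  (∀ σ p, E (pr σ p) ρ → ∀ S', Pos S' → SL P S' S → FB P S' p →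
    ∃ S'', Pos S'' ∧ SL P S'' S' ∧ ∃ b, E b a ∧ H S'' σ b) ∧
  ∀ b, E b a → ∀ S', Pos S' → SL P S' S →
    ∃ S'', Pos S'' ∧ SL P S'' S' ∧ ∃ σ p, E (pr σ p) ρ ∧ FB P S'' p ∧ H S'' σ b

theorem FStep.imp {H H' : g.Rs → g.U → g.U → Prop} {S : g.Rs} {ρ a : g.U}
    (h : ∀ S σ p b, E (pr σ p) ρ → E b a → H S σ b → H' S σ b) (h' : FStep P H S ρ a) :
    FStep P H' S ρ a := by
  refine ⟨fun σ p h₁ S' h₂ h₃ h₄ => ?_, fun b h₁ S' h₂ h₃ => ?_⟩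
  · obtain ⟨S'', h₅, h₆, b, h₇, h₈⟩ := h'.1 σ p h₁ S' h₂ h₃ h₄
    exact ⟨S'', h₅, h₆, b, h₇, h _ _ _ _ h₁ h₇ h₈⟩
  · obtain ⟨S'', h₅, h₆, σ, p, h₇, h₈, h₉⟩ := h'.2 b h₁ S' h₂ h₃
    exact ⟨S'', h₅, h₆, σ, p, h₇, h₈, h _ _ _ _ h₇ h₁ h₉⟩

/-- `S` forces that `ρ` is equal to the ground model set `a`. -/
noncomputable def FE (P : PJ g G) (S : g.Rs) (ρ a : g.U) : Prop :=
  E_wf.fix (C := fun _ => g.Rs → g.U → Prop)
    (fun a IH S ρ => FStep P (fun S' σ b => ∃ h : E b a, IH b h S' σ) S ρ a) a S ρ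

theorem FE_iff {S : g.Rs} {ρ a : g.U} : FE P S ρ a ↔ FStep P (FE P) S ρ a := by
  have : FE P S ρ a ↔ FStep P (fun S' σ b => ∃ _ : E b a, FE P S' σ b) S ρ a := by
    conv_lhs => unfold FE
    rw [WellFounded.fix_eq]
    rfl
  rw [this]
  exact ⟨FStep.imp fun _ _ _ _ _ _ h => h.2, FStep.imp fun _ _ _ _ _ h h' => ⟨h, h'⟩⟩

theorem tm_FE' : g.Tm fun z : g.Rs × g.U × g.U => FE P z.1 z.2.1 z.2.2 := by
  refine tm_wf (r := fun x y : g.Rs × g.U × g.U => (∃ p, E (pr x.2.1 p) y.2.1) ∧ E x.2.2 y.2.2)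
    (Subrelation.wf (fun h => h.2) (InvImage.wf (fun z : g.Rs × g.U × g.U => z.2.2) E_wf))
    (by fun_prop)
    (Ψ := fun z s => FStep P (fun S σ b => ev (g.Rs × g.U × g.U) Prop s (S, σ, b)) z.1 z.2.1 z.2.2)
    (by unfold FStep; fun_prop) (fun z s h => ?_) fun z => ?_
  · refine propext (FE_iff.trans ⟨FStep.imp fun S σ p b h₁ h₂ h₃ => ?_,
      FStep.imp fun S σ p b h₁ h₂ h₃ => ?_⟩)
    · rw [h (S, σ, b) ⟨⟨p, h₁⟩, h₂⟩]; exact h₃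
    · rw [h (S, σ, b) ⟨⟨p, h₁⟩, h₂⟩] at h₃; exact h₃
  · obtain ⟨T, h₁, h₂⟩ := exists_trcl (upr z.2.1 z.2.2)
    obtain ⟨W, hW⟩ := tm_image (g := g) (Q := fun _ : g.Rs × Elt T × Elt T => True)
      (f := fun x => ι (x.1, x.2.1.1, x.2.2.1)) (by fun_prop) (by fun_prop)
    have e : ∀ x : g.Rs × g.U × g.U, E (ι x) W ↔ E x.2.1 T ∧ E x.2.2 T := by
      intro x
      rw [hW]
      constructor
      · rintro ⟨y, -, e⟩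
        obtain rfl := inj e
        exact ⟨y.2.1.2, y.2.2.2⟩
      · intro h
        exact ⟨(x.1, ⟨_, h.1⟩, ⟨_, h.2⟩), trivial, rfl⟩
    refine ⟨W, (e z).2 ⟨h₂ _ h₁ _ (E_upr.2 (Or.inl rfl)), h₂ _ h₁ _ (E_upr.2 (Or.inr rfl))⟩,
      fun b hb c hc => (e c).2 ⟨?_, h₂ _ ((e b).1 hb).2 _ hc.2⟩⟩
    obtain ⟨p, hp⟩ := hc.1
    refine h₂ (upr c.2.1 p) (h₂ _ (h₂ _ ((e b).1 hb).1 _ hp) _ ?_) _ (E_upr.2 (Or.inl rfl))
    simp [E_iff, upr, pair]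

@[fun_prop] theorem tm_FE {Γ : Type*} [Cd g Γ] {S : Γ → g.Rs} {ρ a : Γ → g.U} (h₁ : g.Tm S)
    (h₂ : g.Tm ρ) (h₃ : g.Tm a) : g.Tm fun x => FE P (S x) (ρ x) (a x) :=
  tm_FE'.comp (h₁.pair (h₂.pair h₃))

theorem FE.mono {S S' : g.Rs} {ρ a : g.U} (h : FE P S ρ a) (h' : SL P S' S) : FE P S' ρ a := by
  rw [FE_iff] at h ⊢
  exact ⟨fun σ p h₁ S₁ h₂ h₃ => h.1 σ p h₁ S₁ h₂ (h₃.trans h'),
    fun b h₁ S₁ h₂ h₃ => h.2 b h₁ S₁ h₂ (h₃.trans h')⟩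

theorem truth_eq (P : PJ g G) (a ρ : g.U) :
    val G ρ.1 = a.1 ↔ ∃ S, GG P S ∧ FE P S ρ a := by
  induction a using E_wf.induction generalizing ρ with
  | _ a ih =>
    constructor
    · intro hv
      obtain ⟨S, hS, h | ⟨σ, p, h₁, h₂, h₃⟩ | ⟨b, h₁, h₂⟩⟩ := gg_dense P (D := fun S => FE P S ρ a ∨
        (∃ σ p, E (pr σ p) ρ ∧ FB P S p ∧
          ¬ ∃ S'', Pos S'' ∧ SL P S'' S ∧ ∃ b, E b a ∧ FE P S'' σ b) ∨
        ∃ b, E b a ∧ ¬ ∃ S'', Pos S'' ∧ SL P S'' S ∧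
          ∃ σ p, E (pr σ p) ρ ∧ FB P S'' p ∧ FE P S'' σ b) (by fun_prop) fun S hS => by
          by_contra hc
          refine hc ⟨S, hS, SL.refl P S, Or.inl (FE_iff.2
            ⟨fun σ p h₁ S' h₂ h₃ h₄ => ?_, fun b h₁ S' h₂ h₃ => ?_⟩)⟩
          · by_contra h
            exact hc ⟨S', h₂, h₃, Or.inr (Or.inl ⟨σ, p, h₁, h₄, h⟩)⟩
          · by_contra h
            exact hc ⟨S', h₂, h₃, Or.inr (Or.inr ⟨b, h₁, h⟩)⟩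
      · exact ⟨S, hS, h⟩
      · have hm : val G σ.1 ∈ a.1 :=
          hv ▸ mem_val'.2 ⟨σ, p, h₁, (mem_gen P).2 ⟨S, hS, h₂⟩, rfl⟩
        obtain ⟨S₁, h₄, h₅⟩ := (ih ⟨_, g.zf.trans _ a.2 _ hm⟩ hm σ).1 rfl
        obtain ⟨S₂, h₆, h₇, h₈⟩ := gg_dir hS h₄
        exact absurd ⟨S₂, h₆.1, h₇, ⟨_, g.zf.trans _ a.2 _ hm⟩, hm, h₅.mono h₈⟩ h₃
      · obtain ⟨σ, p, h₃, h₄, h₅⟩ := mem_val'.1 (show b.1 ∈ val G ρ.1 from hv ▸ h₁)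
        obtain ⟨S₁, h₆, h₇⟩ := (ih b h₁ σ).1 h₅
        obtain ⟨S₂, h₈, h₉⟩ := (mem_gen P).1 h₄
        obtain ⟨S₃, k₁, k₂, k₃⟩ := gg_dir h₆ h₈
        obtain ⟨S₄, k₄, k₅, k₆⟩ := gg_dir hS k₁
        exact absurd ⟨S₄, k₄.1, k₅, σ, p, h₃, h₉.mono (k₆.trans k₃), h₇.mono (k₆.trans k₂)⟩ h₂
    · rintro ⟨S, hS, h⟩
      rw [FE_iff] at h
      refine ZFSet.ext fun x => ⟨fun hx => ?_, fun hx => ?_⟩
      · obtain ⟨σ, p, h₁, h₂, rfl⟩ := mem_val'.1 hx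
        obtain ⟨S₁, h₃, h₄⟩ := (mem_gen P).1 h₂
        obtain ⟨S₂, h₅, h₆, h₇⟩ := gg_dir hS h₃
        obtain ⟨S₃, h₈, b, hb, h₉⟩ := gg_below h₅ (D := fun S => ∃ b, E b a ∧ FE P S σ b)
          (by fun_prop) fun S' k₁ k₂ => h.1 σ p h₁ S' k₁ (k₂.trans h₆) (h₄.mono (k₂.trans h₇))
        rw [(ih b hb σ).2 ⟨S₃, h₈, h₉⟩]
        exact hb
      · obtain ⟨S₁, h₁, σ, p, h₂, h₃, h₄⟩ := gg_below hS (D := fun S => ∃ σ p,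
          E (pr σ p) ρ ∧ FB P S p ∧ FE P S σ ⟨x, g.zf.trans _ a.2 _ hx⟩) (by fun_prop)
          (h.2 ⟨x, g.zf.trans _ a.2 _ hx⟩ hx)
        exact mem_val'.2 ⟨σ, p, h₂, (mem_gen P).2 ⟨S₁, h₁, h₃⟩,
          (ih ⟨x, g.zf.trans _ a.2 _ hx⟩ hx σ).2 ⟨S₁, h₁, h₄⟩⟩

/-- The forcing relation for statements `a ∈ τ` with `a` in the ground model. -/
theorem exists_forcing (P : PJ g G) : ∃ Fm : g.Rs → g.U → g.U → Prop,
    g.Tm (fun z : g.Rs × g.U × g.U => Fm z.1 z.2.1 z.2.2) ∧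
    (∀ S S' τ a, Fm S τ a → Pos S' → SL P S' S → Fm S' τ a) ∧
    ∀ τ a : g.U, a.1 ∈ val G τ.1 ↔ ∃ S, GG P S ∧ Fm S τ a := by
  refine ⟨fun S τ a => ∃ σ p, E (pr σ p) τ ∧ FB P S p ∧ FE P S σ a, by fun_prop, ?_, ?_⟩
  · rintro S S' τ a ⟨σ, p, h₁, h₂, h₃⟩ - h
    exact ⟨σ, p, h₁, h₂.mono h, h₃.mono h⟩
  · intro τ a
    rw [mem_val']
    constructor
    · rintro ⟨σ, p, h₁, h₂, h₃⟩
      obtain ⟨S₁, h₄, h₅⟩ := (mem_gen P).1 h₂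
      obtain ⟨S₂, h₆, h₇⟩ := (truth_eq P a σ).1 h₃
      obtain ⟨S₃, k₁, k₂, k₃⟩ := gg_dir h₄ h₆
      exact ⟨S₃, k₁, σ, p, h₁, h₅.mono k₂, h₇.mono k₃⟩
    · rintro ⟨S, hS, σ, p, h₁, h₂, h₃⟩
      exact ⟨σ, p, h₁, (mem_gen P).2 ⟨S, hS, h₂⟩, (truth_eq P a σ).2 ⟨S, hS, h₃⟩⟩

/-- The extension adds no subsets of well-ordered sets. -/
theorem barren (hc : g.TDC) (hu : LU g) (P : PJ g G) (I : Type*) [Cd g I] [Bd g I]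
    [WO g I] [Inhabited I] {X : ZFSet.{u}} (hX : X ∈ Ext g.M G)
    (hI : ∀ z ∈ X, ∃ i : I, (ι i : g.U).1 = z) : X ∈ g.M := by
  obtain ⟨τ₀, hτ, rfl⟩ := hX
  obtain ⟨Fm, hT, mono, truth⟩ := exists_forcing P
  obtain ⟨τ, rfl⟩ : ∃ τ : g.U, τ.1 = τ₀ := ⟨⟨τ₀, hτ⟩, rfl⟩
  let D : I → g.Rs → Prop := fun i S =>
    Fm S τ (ι i) ∨ ∀ S', Pos S' → SL P S' S → ¬ Fm S' τ (ι i)
  obtain ⟨S, hS, hD⟩ := gg_dense P (D := fun S => ∀ i, D i S) (by fun_prop) fun S₀ h₀ => by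
    obtain ⟨R, hR⟩ := exists_res_of_pos h₀
    obtain ⟨y, hy, h⟩ := ep hc hu (D := fun i y => D i (rng y)) (by fun_prop) (s := []) (R := R)
      ⟨_, lm_nil R⟩ (fun i y y' _ h h' => h.imp
        (fun h => mono _ _ _ _ h (pos_rng h'.2.1) (sl_of_sub h'.2.2))
        fun h S' h₁ h₂ => h S' h₁ (h₂.trans (sl_of_sub h'.2.2))) fun i y hy k _ => by
        by_cases h : ∃ S', Pos S' ∧ SL P S' (rng y) ∧ Fm S' τ (ι i)
        · obtain ⟨S', h₁, h₂, h₃⟩ := h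
          obtain ⟨y', h₄, h₅⟩ := below_of_sl hy.2.1 h₁ h₂ k
          exact ⟨y', h₄, Or.inl (mono _ _ _ _ h₃ (pos_rng h₄.2.1) h₅)⟩
        · exact ⟨y, ⟨by simp, hy.2.1, Sub.refl y⟩, Or.inr fun S' h₁ h₂ h₃ => h ⟨S', h₁, h₂, h₃⟩⟩
    exact ⟨rng y, pos_rng hy.2.1, sl_of_forall fun p ⟨n, e⟩ => e ▸ hR y hy n, h⟩
  have e : val G τ.1 = (img (fun i : I => Fm S τ (ι i)) fun i => (ι i : g.U)).1 := by
    have key : ∀ i : I, (ι i : g.U).1 ∈ val G τ.1 ↔ Fm S τ (ι i) := fun i => by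
      rw [truth]
      refine ⟨fun ⟨S', h₁, h₂⟩ => (hD i).resolve_right fun h => ?_, fun h => ⟨S, hS, h⟩⟩
      obtain ⟨S'', h₃, h₄, h₅⟩ := gg_dir hS h₁
      exact h S'' h₃.1 h₄ (mono _ _ _ _ h₂ h₃.1 h₅)
    ext z
    constructor
    · intro hz
      obtain ⟨i, rfl⟩ := hI z hz
      exact (E_img (by fun_prop) (by fun_prop)).2 ⟨i, (key i).1 hz, rfl⟩
    · intro hz
      obtain ⟨i, h₁, h₂⟩ := (E_img (y := ⟨z, g.zf.trans _ (U.mem _) _ hz⟩) (by fun_prop)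
        (by fun_prop)).1 hz
      obtain rfl : (ι i : g.U).1 = z := congrArg U.val h₂
      exact (key i).2 h₁
  exact e ▸ U.mem _

/-- Densely many conditions decide a colouring on a homogeneous set of the ground model. -/
theorem homog_dense (P : PJ g G) (hd : g.TDet ℕ) (hc : g.TDC) (hu : LU g) {T W : Type*} [Cd g T] [Bd g T]
    [LinearOrder T] [OT g T] [Inhabited T] [Cd g W] [WO g W] [Inhabited W] (hT : g.TSP T)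
    {Ψ : W → g.PR → Fn g T Prop} (hΨ : g.Tm fun z : W × g.PR => Ψ z.1 z.2)
    (onto : ∀ K, ∃ w A, Ψ w A = K) {Dec : g.Rs → Fn g T Prop → T → Prop}
    (hD : g.Tm fun z : g.Rs × Fn g T Prop × T => Dec z.1 z.2.1 z.2.2)
    (mono : ∀ S S' x i, Dec S x i → Pos S' → SL P S' S → Dec S' x i) (m : T) {S₀ : g.Rs}
    (h₀ : Pos S₀) : ∃ S, Pos S ∧ SL P S S₀ ∧
      ((∃ K : Fn g T Prop, Big K ∧ ∃ i, ∀ x, Big x → (∀ a, x a → K a) → Dec S x i) ∨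
        ∃ x, Big x ∧ ∀ S', Pos S' → SL P S' S → ∀ i, i < m → ¬ Dec S' x i) := by
  classical
  by_contra hn
  obtain ⟨R, hR⟩ := exists_res_of_pos h₀
  obtain ⟨L, hL, L₁, L₂, L₃⟩ := hT.exists_lim
  obtain ⟨m', hm'⟩ := hT.nomax m
  have hle : ∀ y, Cube [] R y → SL P (rng y) S₀ := fun y hy =>
    sl_of_forall fun p ⟨n, e⟩ => e ▸ hR y hy n
  let Q : g.Yy → Fn g T Prop → Prop := fun y K => Big K ∧
    ∀ z, Big z → (∀ a, z a → K a) → ∀ i, i < m → ¬ Dec (rng y) (L z) i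
  have tot : ∀ y, Cube [] R y → ∃ K, Q y K := fun y hy => by
    obtain ⟨K, hK, i, hi⟩ := hT.part (fun z => if ∃ i, i < m ∧ Dec (rng y) (L z) i then
      g.least fun i => i < m ∧ Dec (rng y) (L z) i else m) (by fun_prop) m' fun z _ => by
        split_ifs with h
        exacts [(least_spec h).1.trans hm', hm']
    refine ⟨K, hK, fun z h₁ h₂ j h₃ h₄ => hn ⟨rng y, pos_rng hy.2.1, hle y hy,
      Or.inl ⟨L K, L₁ K hK, i, fun x h₅ h₆ => ?_⟩⟩⟩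
    have hi' : i < m := by
      have h : ∃ i, i < m ∧ Dec (rng y) (L z) i := ⟨j, h₃, h₄⟩
      rw [← hi z h₁ h₂, if_pos h]
      exact (least_spec h).1
    obtain ⟨z', h₇, h₈, rfl⟩ := L₂ K x hK h₅ h₆
    have := hi z' h₇ h₈
    split_ifs at this with h
    · exact this ▸ (least_spec h).2
    · exact absurd hi' (this ▸ lt_irrefl _)
  obtain ⟨⟨s, H⟩, hc', F, hF, hP⟩ := wadge_unif hd hc hu (P := fun y A => ∃ w, Q y (Ψ w A))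
    (by fun_prop) (c := ([], R)) ⟨_, lm_nil R⟩ fun y hy => by
      obtain ⟨K, hK⟩ := tot y hy
      obtain ⟨w, A, rfl⟩ := onto K
      exact ⟨A, w, hK⟩
  let K : g.Yy → Fn g T Prop := fun y => Ψ (g.least fun w => Q y (Ψ w (F y))) (F y)
  have hK : ∀ y, Cube s H y → Q y (K y) := fun y hy => least_spec (hP y hy)
  obtain ⟨y, hy, hb⟩ := bound_family hc hu hT.unc
    (F := fun a y => g.least fun k => a < k ∧ K y k) (by fun_prop) hc'.1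
  obtain ⟨x, hx, hx'⟩ := L₃ (fun a => g.least fun b => ∀ y', Below s y' y →
    (g.least fun k => a < k ∧ K y' k) < b) (by fun_prop)
  refine hn ⟨rng y, pos_rng hy.2.1, hle y (hc'.2.2 y hy), Or.inr ⟨x, hx, fun S' h₁ h₂ i h₃ h₄ => ?_⟩⟩
  obtain ⟨y', h₅, h₆⟩ := below_of_sl hy.2.1 h₁ h₂ s.length
  rw [hy.1] at h₅
  have h₇ := hK y' (sub_cube hy h₅)
  obtain ⟨z, h₈, h₉, rfl⟩ := hx' (K y') fun a => by
    have := least_spec (g := g) ((hT.big_iff _).1 h₇.1 a)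
    exact ⟨_, this.2, this.1, least_spec (g := g) (hb a) y' h₅⟩
  exact h₇.2 z h₈ h₉ i h₃ (mono _ _ _ _ h₄ (pos_rng h₅.2.1) h₆)

theorem preserve {k : g.U} (hd : g.TDet ℕ) (hc : g.TDC) (hu : LU g) (hs : Small (pow k))
    (hk : StrongPartition g.M k.1) (P : PJ g G) : StrongPartition (Ext g.M G) k.1 := by
  have : Fact (IsOrdinal k.1) := ⟨hk.ord⟩
  have : Inhabited (Elt k) := ⟨⟨g.om, hk.unc⟩⟩
  have elt : ∀ a ∈ k.1, ∃ i : Elt k, i.1.1 = a := fun a ha =>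
    ⟨⟨⟨a, g.zf.trans _ k.2 _ ha⟩, ha⟩, rfl⟩
  have fn : ∀ f ∈ Ext g.M G, ∀ D X : Set ZFSet.{u}, (∀ a ∈ D, a ∈ k.1) → (∀ a ∈ X, a ∈ k.1) →
      IsFn f D X → f ∈ g.M := fun f hf D X h₁ h₂ h₃ =>
    barren hc hu P (Elt k × Elt k) hf fun z hz => by
      obtain ⟨a, ha, b, hb, rfl⟩ := h₃.1 z hz
      obtain ⟨i, rfl⟩ := elt a (h₁ a ha)
      obtain ⟨j, rfl⟩ := elt b (h₂ b hb)
      exact ⟨(i, j), rfl⟩
  have up : ∀ x, HasOtp g.M x k.1 → HasOtp (Ext g.M G) x k.1 := fun x ⟨f, hf, h⟩ =>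
    ⟨f, sub_ext P hf, h⟩
  have down : ∀ x, x ⊆ k.1 → HasOtp (Ext g.M G) x k.1 → HasOtp g.M x k.1 :=
    fun x hx ⟨f, hf, h⟩ => ⟨f, fn f hf _ _ (fun _ h => h) (fun _ h => hx h) h.1, h⟩
  have ss : ∀ x : Fn g (Elt k) Prop, (sof x).1 ⊆ k.1 := fun x z hz => by
    obtain ⟨a, -, rfl⟩ := mem_sof.1 hz
    exact a.2
  refine ⟨sub_ext P k.2, hk.ord, hk.unc, fun a ha ⟨f, hf, h⟩ => hk.card a ha
    ⟨f, fn f hf _ _ (fun _ h => hk.ord.mem_trans h ha) (fun _ h => h) h.1, h⟩, ?_⟩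
  rintro m₀ hm - _ ⟨τ₀, hτ, rfl⟩ hfn
  obtain ⟨m, rfl⟩ := elt m₀ hm
  obtain ⟨τ, rfl⟩ : ∃ τ : g.U, τ.1 = τ₀ := ⟨⟨τ₀, hτ⟩, rfl⟩
  obtain ⟨Fm, hT, mono, truth⟩ := exists_forcing P
  obtain ⟨W, _, _, _, Ψ, hΨ, onto⟩ := hs
  obtain ⟨S, hS, hD⟩ := gg_dense P (by fun_prop) fun S₀ h₀ => homog_dense P hd hc hu (tsp_of_sp hk)
    (Ψ := fun (w : W) A => ⟨fun a => E a.1 (Ψ w A), by fun_prop⟩) (by fun_prop) (fun K => by
      obtain ⟨w, A, e⟩ := onto (sof K) (E_pow.2 fun y hy => ss K hy)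
      refine ⟨w, A, Fn.ext' fun a => propext ?_⟩
      simp only [e, E_iff, mem_sof]
      exact ⟨fun ⟨b, h₁, h₂⟩ => Elt.ext (U.ext h₂) ▸ h₁, fun h => ⟨a, h, rfl⟩⟩)
    (Dec := fun S x i => Fm S τ (pr (sof x) i.1)) (by fun_prop)
    (fun _ _ _ _ => mono _ _ _ _) m h₀
  rcases hD with ⟨K, hK, i, hi⟩ | ⟨x, hx, h⟩
  · refine ⟨(sof K).1, sub_ext P (sof K).2, ss K, up _ ((hasOtp_iff K).2 hK), i.1.1,
      fun x h₁ h₂ h₃ => ?_⟩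
    have h₄ : x ⊆ k.1 := fun _ h => ss K (h₂ h)
    obtain ⟨x, rfl⟩ := exists_sof (barren hc hu P (Elt k) h₁ fun z hz => elt z (h₄ hz)) h₄
    refine (truth τ (pr (sof x) i.1)).2 ⟨S, hS, hi x ((hasOtp_iff x).1 (down _ h₄ h₃))
      fun a ha => ?_⟩
    obtain ⟨b, h₅, h₆⟩ := mem_sof.1 (h₂ (mem_sof.2 ⟨a, ha, rfl⟩))
    exact Elt.ext (U.ext h₆) ▸ h₅
  · obtain ⟨b, hb, -⟩ := hfn.2 (sof x).1 ⟨sub_ext P (sof x).2, ss x, up _ ((hasOtp_iff x).2 hx)⟩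
    obtain ⟨_, -, b', hb', e⟩ := hfn.1 _ hb
    obtain rfl : b = b' := (pair_inj.1 e).2
    obtain ⟨i, rfl⟩ := elt b (hk.ord.mem_trans hb' hm)
    obtain ⟨S', h₁, h₂⟩ := (truth τ (pr (sof x) i.1)).1 hb
    obtain ⟨S'', h₃, h₄, h₅⟩ := gg_dir hS h₁
    exact absurd (mono _ _ _ _ h₂ h₃.1 h₅) (h S'' h₃.1 h₄ i hb')

theorem homog_dense' (P : PJ g G) {T : Type*} [Cd g T] [Bd g T] [LinearOrder T] [OT g T] [Inhabited T]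
    (hT : g.TSP T) (rc : ∀ L : g.Asg T, LMono L → (∀ r, ∃ b, L (b, r)) → ∃ b, ∀ r, L (b, r))
    {Dec : g.Rs → Fn g T Prop → T → Prop}
    (hD : g.Tm fun z : g.Rs × Fn g T Prop × T => Dec z.1 z.2.1 z.2.2) (m : T) {S₀ : g.Rs}
    (h₀ : Pos S₀) : ∃ S, Pos S ∧ SL P S S₀ ∧
      ((∃ K : Fn g T Prop, Big K ∧ ∃ i, ∀ x, Big x → (∀ a, x a → K a) → Dec S x i) ∨
        ∃ x, Big x ∧ ∀ S', Pos S' → SL P S' S → ∀ i, i < m → ¬ Dec S' x i) := by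
  classical
  by_contra hn
  obtain ⟨m', hm'⟩ := hT.nomax m
  have key : ∀ S, Pos S → SL P S S₀ →
      ∃ b : Fn g T T, ∀ x, Typ b x → ∀ i, i < m → ¬ Dec S x i := fun S h₁ h₂ => by
    obtain ⟨i, b, hb⟩ := aw_part hT (c := fun x => if ∃ i, i < m ∧ Dec S x i then
      g.least fun i => i < m ∧ Dec S x i else m) (by fun_prop) m' fun z _ => by
        split_ifs with h
        exacts [(least_spec h).1.trans hm', hm']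
    refine ⟨b, fun x hx j h₃ h₄ => ?_⟩
    have hi : i < m := by
      have h : ∃ i, i < m ∧ Dec S x i := ⟨j, h₃, h₄⟩
      have e := hb x hx
      simp only [if_pos h] at e
      exact e ▸ (least_spec h).1
    refine hn ⟨S, h₁, h₂, Or.inl ⟨x, hx.1, i, fun y h₅ h₆ => ?_⟩⟩
    have e := hb y (hx.sub h₅ h₆)
    by_cases h : ∃ i, i < m ∧ Dec S y i
    · simp only [if_pos h] at e
      exact e ▸ (least_spec h).2
    · simp only [if_neg h] at e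
      exact absurd hi (e ▸ lt_irrefl _)
  obtain ⟨b, hb⟩ := rc ⟨fun z => ∀ x, Typ z.1 x → Pos (RL.dec z.2 : g.Rs) →
      SL P (RL.dec z.2 : g.Rs) S₀ → ∀ i, i < m → ¬ Dec (RL.dec z.2) x i, by fun_prop⟩
    (fun b b' r h₁ h₂ x hx => h₂ x (hx.anti h₁)) fun r => by
      by_cases h : Pos (RL.dec r : g.Rs) ∧ SL P (RL.dec r : g.Rs) S₀
      · obtain ⟨b, hb⟩ := key _ h.1 h.2
        exact ⟨b, fun x hx _ _ => hb x hx⟩
      · exact ⟨⟨fun a => a, by fun_prop⟩, fun x _ h₁ h₂ => absurd ⟨h₁, h₂⟩ h⟩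
  obtain ⟨x, hx⟩ := exists_typ hT b
  refine hn ⟨S₀, h₀, SL.refl P S₀, Or.inr ⟨x, hx.1, fun S' h₁ h₂ => ?_⟩⟩
  have h₃ : Pos (RL.dec (RL.enc S') : g.Rs) → SL P (RL.dec (RL.enc S') : g.Rs) S₀ →
      ∀ i, i < m → ¬ Dec (RL.dec (RL.enc S')) x i := hb (RL.enc S') x hx
  rw [RL.dec_enc] at h₃
  exact h₃ h₁ h₂

theorem preserve_rc {k : g.U} [Fact (IsOrdinal k.1)] (hc : g.TDC) (hu : LU g)
    (rc : ∀ L : g.Asg (Elt k), LMono L → (∀ r, ∃ b, L (b, r)) → ∃ b, ∀ r, L (b, r))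
    (hk : StrongPartition g.M k.1) (P : PJ g G) : StrongPartition (Ext g.M G) k.1 := by
  have : Inhabited (Elt k) := ⟨⟨g.om, hk.unc⟩⟩
  have elt : ∀ a ∈ k.1, ∃ i : Elt k, i.1.1 = a := fun a ha =>
    ⟨⟨⟨a, g.zf.trans _ k.2 _ ha⟩, ha⟩, rfl⟩
  have fn : ∀ f ∈ Ext g.M G, ∀ D X : Set ZFSet.{u}, (∀ a ∈ D, a ∈ k.1) → (∀ a ∈ X, a ∈ k.1) →
      IsFn f D X → f ∈ g.M := fun f hf D X h₁ h₂ h₃ =>
    barren hc hu P (Elt k × Elt k) hf fun z hz => by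
      obtain ⟨a, ha, b, hb, rfl⟩ := h₃.1 z hz
      obtain ⟨i, rfl⟩ := elt a (h₁ a ha)
      obtain ⟨j, rfl⟩ := elt b (h₂ b hb)
      exact ⟨(i, j), rfl⟩
  have up : ∀ x, HasOtp g.M x k.1 → HasOtp (Ext g.M G) x k.1 := fun x ⟨f, hf, h⟩ =>
    ⟨f, sub_ext P hf, h⟩
  have down : ∀ x, x ⊆ k.1 → HasOtp (Ext g.M G) x k.1 → HasOtp g.M x k.1 :=
    fun x hx ⟨f, hf, h⟩ => ⟨f, fn f hf _ _ (fun _ h => h) (fun _ h => hx h) h.1, h⟩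
  have ss : ∀ x : Fn g (Elt k) Prop, (sof x).1 ⊆ k.1 := fun x z hz => by
    obtain ⟨a, -, rfl⟩ := mem_sof.1 hz
    exact a.2
  refine ⟨sub_ext P k.2, hk.ord, hk.unc, fun a ha ⟨f, hf, h⟩ => hk.card a ha
    ⟨f, fn f hf _ _ (fun _ h => hk.ord.mem_trans h ha) (fun _ h => h) h.1, h⟩, ?_⟩
  rintro m₀ hm - _ ⟨τ₀, hτ, rfl⟩ hfn
  obtain ⟨m, rfl⟩ := elt m₀ hm
  obtain ⟨τ, rfl⟩ : ∃ τ : g.U, τ.1 = τ₀ := ⟨⟨τ₀, hτ⟩, rfl⟩
  obtain ⟨Fm, hT, mono, truth⟩ := exists_forcing P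
  obtain ⟨S, hS, hD⟩ := gg_dense P (by fun_prop) fun S₀ h₀ => homog_dense' P (tsp_of_sp hk) rc
    (Dec := fun S x i => Fm S τ (pr (sof x) i.1)) (by fun_prop) m h₀
  rcases hD with ⟨K, hK, i, hi⟩ | ⟨x, hx, h⟩
  · refine ⟨(sof K).1, sub_ext P (sof K).2, ss K, up _ ((hasOtp_iff K).2 hK), i.1.1,
      fun x h₁ h₂ h₃ => ?_⟩
    have h₄ : x ⊆ k.1 := fun _ h => ss K (h₂ h)
    obtain ⟨x, rfl⟩ := exists_sof (barren hc hu P (Elt k) h₁ fun z hz => elt z (h₄ hz)) h₄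
    refine (truth τ (pr (sof x) i.1)).2 ⟨S, hS, hi x ((hasOtp_iff x).1 (down _ h₄ h₃))
      fun a ha => ?_⟩
    obtain ⟨b, h₅, h₆⟩ := mem_sof.1 (h₂ (mem_sof.2 ⟨a, ha, rfl⟩))
    exact Elt.ext (U.ext h₆) ▸ h₅
  · obtain ⟨b, hb, -⟩ := hfn.2 (sof x).1 ⟨sub_ext P (sof x).2, ss x, up _ ((hasOtp_iff x).2 hx)⟩
    obtain ⟨_, -, b', hb', e⟩ := hfn.1 _ hb
    obtain rfl : b = b' := (pair_inj.1 e).2
    obtain ⟨i, rfl⟩ := elt b (hk.ord.mem_trans hb' hm)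
    obtain ⟨S', h₁, h₂⟩ := (truth τ (pr (sof x) i.1)).1 hb
    obtain ⟨S'', h₃, h₄, h₅⟩ := gg_dir hS h₁
    exact absurd (mono _ _ _ _ h₂ h₃.1 h₅) (h S'' h₃.1 h₄ i hb')

theorem preserve_all (P : PJ g G) (hD : ADR g.M ∨ (ADplus g.M ∧ VeqL g.M)) (κ : ZFSet.{u})
    (hκ : StrongPartition g.M κ) : StrongPartition (Ext g.M G) κ := by
  let k : g.U := ⟨κ, hκ.mem⟩
  have : Fact (IsOrdinal k.1) := ⟨hκ.ord⟩
  have : Inhabited (Elt k) := ⟨⟨g.om, hκ.unc⟩⟩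
  have hT := tsp_of_sp (k := k) hκ
  rcases hD with h | ⟨h, hV⟩
  · have hr := tdet_re_of_adr (g := g) h
    by_cases hb : BelowTheta g.M κ
    · exact preserve (k := k) (hr.rl ℕ) hr.tdc (lu_of_tdet hr) (small_of_theta (k := k) hb) hκ P
    have hn := ns_of_not_theta hT hb
    obtain ⟨S, S', hS, hS', hd⟩ := exists_stat hT hr.tdc hn
    exact preserve_rc (k := k) hr.tdc (lu_of_tdet hr)
      (fun L hL tot => real_complete hT hn (linB hr hT.unc hn) hS hS' hd hL tot) hκ P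
  · have hd := tdet_nat_of_ad (g := g) h.ad
    have hc := tdc_of_adplus (g := g) h
    exact preserve (k := k) hd hc (lu_of_tib hd hc (tib_of_adplus h) hT.unc)
      (small_of_veql (g := g) hV _) hκ P

end Mdl.Pw

end Pool.Agent.MP_09d684_lc
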