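import Pool.Agent.MP_09d684_lc.Tr.Space
import Pool.Agent.Mg.F09d684a.Gd63bb5

/-! Fusion, the chain lemma and local uniformization for the space of `Tr/Space`; the proofs are
those of the space for `Fin ⊗ Fin`. -/

namespace Pool.Agent.MP_09d684_lc

open ZFSet

universe u v w

namespace Mdl.Pw

variable {g : Mdl.{u}}

open Cd

theorem fus_tip {st : St → g.Rs → g.Rs} (h₀ : g.Tm fun z : St × g.Rs => st z.1 z.2)
    (h : ∀ t R, RLe (st t R) R) {s t : St} {R : g.Rs} (ht : t = s ∨ Tip t (fus st s R)) :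
    ∃ R', RLe R' R ∧ (∀ C : g.Rs → Prop, C R → (∀ t R, C R → C (st t R)) → C R') ∧
      ∀ y, Cube t (fus st s R) y → Cube t (st t R') y := by
  rcases ht with rfl | ht
  · exact ⟨R, RLe.refl R, fun _ hC _ => hC, fun y hy => cube_le (fus_le h₀ h t R) hy⟩
  · have key : ∀ C : g.Rs → Prop, C R → (∀ t R, C R → C (st t R)) →
        ∀ k, C (fusSeq st s R k) := fun C hC hs k => by
      induction k with
      | zero => exact hs _ _ hC
      | succ k ih =>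
        rw [fusSeq_succ]
        exact hs _ _ ih
    refine ⟨fusSeq st s R (g.lcode t), key (fun R' => RLe R' R) (RLe.refl R)
      (fun t R' hR => (h t R').trans hR) _, fun C hC hs => key C hC hs _, fun y hy => ?_⟩
    have := diag_tip (fusSeq_dec h₀ h s R) ht hy
    rwa [fusSeq_lam h₀, fusSeq_succ, ← nenc_list, NL.dec_enc] at this

/-- Simple fusion. -/
theorem sf (hc : g.TDC) {C : g.Rs → Prop} (hC : g.Tm C) {P : ℕ → St → g.Rs → Prop}
    (hP : g.Tm fun z : ℕ × St × g.Rs => P z.1 z.2.1 z.2.2)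
    (dense : ∀ j t R, C R → ∃ R', C R' ∧ RLe R' R ∧ P j t R')
    (her : ∀ j t R R', P j t R → (∀ y, Cube t R' y → Cube t R y) → P j t R') {R : g.Rs}
    (hR : C R) : ∃ H, RLe H R ∧ ∀ j t, Tip t H → j ≤ g.lcode t → P j t H := by
  have step : ∀ k t R, C R → ∃ R', C R' ∧ RLe R' R ∧ ∀ j, j < k → P j t R' := by
    intro k t R hR
    induction k with
    | zero => exact ⟨R, hR, RLe.refl R, fun j hj => absurd hj (Nat.not_lt_zero j)⟩
    | succ k ih =>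
      obtain ⟨R₁, h₁, h₂, h₃⟩ := ih
      obtain ⟨R₂, h₄, h₅, h₆⟩ := dense k t R₁ h₁
      refine ⟨R₂, h₄, h₅.trans h₂, fun j hj => ?_⟩
      rcases Nat.lt_succ_iff_lt_or_eq.1 hj with hj | rfl
      · exact her j t R₁ R₂ (h₃ j hj) fun y hy => cube_le h₅ hy
      · exact h₆
  obtain ⟨f, f₀, hf⟩ := hc.dc (α := ℕ × g.Rs) (S := fun z => C z.2) (by fun_prop)
    (Q := fun z z' => z'.1 = z.1 + 1 ∧ RLe z'.2 z.2 ∧
      ∀ j, j < z.1 + 1 → P j (NL.dec g z.1) z'.2) (by fun_prop) (fun z hz => by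
      obtain ⟨R', h₁, h₂, h₃⟩ := step (z.1 + 1) (NL.dec g z.1) z.2 hz
      exact ⟨(z.1 + 1, R'), h₁, rfl, h₂, h₃⟩) (a₀ := (0, R)) hR
  have f₁ : ∀ n, (f n).1 = n := fun n => by
    induction n with
    | zero => rw [f₀]
    | succ n ih => rw [(hf n).2.1, ih]
  let S : Fn g ℕ g.Rs := ⟨fun k => (f k).2, by fun_prop⟩
  have hS : ∀ k, RLe (S (k + 1)) (S k) := fun k => (hf k).2.2.1
  refine ⟨diag S, ?_, fun j t ht hj => ?_⟩
  · have := diag_le hS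
    rwa [show S 0 = R from congrArg Prod.snd f₀] at this
  · have := (hf (g.lcode t)).2.2.2 j (by rw [f₁]; omega)
    rw [f₁, ← nenc_list, NL.dec_enc] at this
    exact her j t _ _ this fun y hy => diag_tip hS ht hy

theorem Good.mono {D : g.Cn → Prop} {t : St} {R R' : g.Rs} (h : Good D t R)
    (h' : ∀ y, Cube t R' y → Cube t R y) : Good D t R' := fun y hy => h y (h' y hy)

theorem eq_or_tip {s : St} {H : g.Rs} {y : g.Yy} {n : ℕ} (h : Cube s H y) (hn : s.length ≤ n) :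
    ini y n = s ∨ Tip (ini y n) H := by
  rcases hn.eq_or_lt with rfl | hn
  exacts [Or.inl h.1, Or.inr (tip_ini h hn)]

/-- The core of the Mathias property. -/
theorem mp_core {C : g.Rs → Prop} {D : g.Cn → Prop} (hm : ∀ R R', C R → C R' → C (meet R R'))
    (hd : ∀ c : g.Cn, C c.2 → NE c → ∃ c' : g.Cn, C c'.2 ∧ CLe c' c ∧ D c') {s : St} {H : g.Rs}
    (B : Fn g St Prop) (hB : ∀ t, B t ↔ ¬ Good D t H)
    (h₁ : ∀ t, t = s ∨ Tip t H → Good D t H ∨ ∀ R', C R' → RLe R' H → ¬ Good D t R')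
    (h₂ : C (fus (pig B) s H)) : Good D s H := by
  by_contra hs
  have tp : g.Tm fun z : St × g.Rs => pig B z.1 z.2 := by fun_prop
  have hle : RLe (fus (pig B) s H) H := (fus_le tp (pig_le B) s H).trans (pig_le B s H)
  have key : ∀ y, Cube s (fus (pig B) s H) y → ∀ n, s.length ≤ n → ¬ Good D (ini y n) H := by
    intro y hy n hn
    induction n, hn using Nat.le_induction with
    | base => rwa [hy.1]
    | succ n hn ih =>
      obtain ⟨R', -, -, h₃⟩ := fus_tip tp (pig_le B) (eq_or_tip hy hn)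
      rcases pig_spec B (ini y n) R' with h₄ | h₄
      · have := h₄ y (h₃ y (cube_ini hy hn))
        rwa [length_ini, hB] at this
      · refine absurd (fun y' hy' => ?_)
          ((h₁ _ (eq_or_tip (cube_le hle hy) hn)).resolve_left ih _ h₂ hle)
        have := h₄ y' (h₃ y' hy')
        rw [hB, not_not] at this
        exact this y' (cube_ini (cube_le hle hy') (Nat.le_succ _))
  have hne : NE (s, H) := by
    by_contra hne
    exact hs fun y hy => absurd ⟨y, hy⟩ hne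
  obtain ⟨c', hC, ⟨⟨y, hy⟩, hl, hsub⟩, hD⟩ := hd (s, fus (pig B) s H) h₂ ⟨_, hne.lm _⟩
  have hy' : Cube s (fus (pig B) s H) y := hsub y hy
  have hy'' : Cube c'.1 (fus (pig B) s H) y := by
    have := cube_ini hy' hl
    rwa [hy.1] at this
  have h₃ := (h₁ _ (eq_or_tip (cube_le hle hy') hl)).resolve_left (key y hy' _ hl)
  rw [hy.1] at h₃
  exact h₃ _ (hm _ _ h₂ hC) ((meet_le _ _).trans hle) fun y' h₄ =>
    ⟨c', hD, (meet_cube hy'' hy).2 y' h₄⟩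

theorem mp0 (hc : g.TDC) {D : g.Cn → Prop} (hD : g.Tm D) (hd : Dns D) (s : St) (R : g.Rs) :
    ∃ R', RLe R' R ∧ Good D s R' := by
  by_contra hn
  have hn' : ∀ R', RLe R' R → ¬ Good D s R' := fun R' h₁ h₂ => hn ⟨R', h₁, h₂⟩
  obtain ⟨H, h₁, h₂⟩ := sf hc (C := fun _ => True) (by fun_prop)
    (P := fun _ t R => Good D t R ∨ ∀ R', RLe R' R → ¬ Good D t R') (by fun_prop)
    (fun _ t R _ => by
      by_cases h : ∃ R', RLe R' R ∧ Good D t R'
      · obtain ⟨R', h₁, h₂⟩ := h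
        exact ⟨R', trivial, h₁, Or.inl h₂⟩
      · exact ⟨R, trivial, RLe.refl R, Or.inr fun R' h₁ h₂ => h ⟨R', h₁, h₂⟩⟩)
    (fun _ t R R' h h' => by
      rcases h with h | h
      · exact Or.inl (h.mono h')
      · by_cases hne : NE (t, R')
        · refine Or.inr fun R'' h₁ h₂ => h (meet R R'') (meet_le _ _) (h₂.mono ?_)
          exact (meet_cube (h' _ (cube_le h₁ (hne.lm R''))) (hne.lm R'')).2
        · exact Or.inl fun y hy => absurd ⟨y, hy⟩ hne) (R := R) trivial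
  refine hn' H h₁ (mp_core (C := fun _ => True) (fun _ _ _ _ => trivial) (fun c _ hc => ?_)
    ⟨fun t => ¬ Good D t H, by fun_prop⟩ (fun _ => Iff.rfl) (fun t ht => ?_) trivial)
  · obtain ⟨c', h₃, h₄⟩ := hd c hc
    exact ⟨c', trivial, h₃, h₄⟩
  · rcases ht with rfl | ht
    · exact Or.inr fun R' _ h₃ => hn' R' (h₃.trans h₁)
    · exact (h₂ 0 t ht (Nat.zero_le _)).imp id fun h R' _ => h R'

/-- Countably many dense open sets are met by the conditions `(y | n, H)`. -/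
theorem cmp (hc : g.TDC) {D : ℕ → g.Cn → Prop} (hD : g.Tm fun z : ℕ × g.Cn => D z.1 z.2)
    (hd : ∀ j, Dns (D j)) (ho : ∀ j, Opn (D j)) (R : g.Rs) :
    ∃ H, RLe H R ∧ ∀ s y j, Cube s H y → ∃ n₀, ∀ n, n₀ ≤ n → D j (ini y n, H) := by
  obtain ⟨H, h₁, h₂⟩ := sf hc (C := fun _ => True) (by fun_prop)
    (P := fun j t R => Good (D j) t R ∧
      (NE (t, R) → D j (t, R) ∨ ∀ R', RLe R' R → ¬ D j (t, R'))) (by fun_prop)
    (fun j t R _ => by
      obtain ⟨R₁, h₁, h₂⟩ := mp0 hc (D := D j) (by fun_prop) (hd j) t R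
      by_cases h : ∃ R', RLe R' R₁ ∧ D j (t, R')
      · obtain ⟨R', h₃, h₄⟩ := h
        exact ⟨R', trivial, h₃.trans h₁, h₂.mono fun y => cube_le h₃, fun _ => Or.inl h₄⟩
      · exact ⟨R₁, trivial, h₁, h₂, fun _ => Or.inr fun R' h₃ h₄ => h ⟨R', h₃, h₄⟩⟩)
    (fun j t R R' h h' => by
      refine ⟨h.1.mono h', fun hne => ?_⟩
      rcases h.2 (hne.imp h') with h₁ | h₁
      · exact Or.inl (ho j _ _ h₁ ⟨hne, le_rfl, h'⟩)
      · refine Or.inr fun R'' h₂ h₃ => h₁ (meet R R'') (meet_le _ _) (ho j _ _ h₃ ?_)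
        have := meet_cube (h' _ (cube_le h₂ (hne.lm R''))) (hne.lm R'')
        exact ⟨⟨_, this.1⟩, le_rfl, this.2⟩) (R := R) trivial
  refine ⟨H, h₁, fun s y j hy => ?_⟩
  have h₃ : ∀ n, s.length < n → j ≤ n → Good (D j) (ini y n) H ∧
      (NE (ini y n, H) → D j (ini y n, H) ∨ ∀ R', RLe R' H → ¬ D j (ini y n, R')) :=
    fun n hn hj => h₂ j _ (tip_ini hy hn) (hj.trans (le_lcode_ini _ n))
  obtain ⟨c, hc₁, hc₂⟩ := (h₃ (s.length + 1 + j) (by omega) (by omega)).1 y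
    (cube_ini hy (by omega))
  have hy' : Cube (ini y (s.length + 1 + j + c.1.length)) H y := cube_ini hy (by omega)
  have h₄ := (cle_meet (c := (s, H)) (c' := c) (n := s.length + 1 + j + c.1.length) hy hc₂
    (by dsimp only; omega) (by omega)).2.2
  have h₅ := ((h₃ _ (by omega) (by omega)).2 ⟨y, hy'⟩).resolve_right
    fun h => h _ (meet_le _ _) (ho j _ _ hc₁ h₄)
  exact ⟨_, fun n hn => ho j _ _ h₅ (cle_ini hy' (by rwa [length_ini]))⟩

theorem fdense (hc : g.TDC) {D : ℕ → g.Cn → Prop} (hD : g.Tm fun z : ℕ × g.Cn => D z.1 z.2)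
    (hd : ∀ j, Dns (D j)) (ho : ∀ j, Opn (D j)) {y : g.Yy} (hy : Val y) (k : ℕ) :
    ∃ y' H, Below (ini y k) y' y ∧ ∀ y'', Val y'' → Sub y'' y' → ∀ j, ∃ n₀, ∀ n, n₀ ≤ n →
      D j (ini y'' n, H) ∧ Cube (ini y'' n) H y'' := by
  obtain ⟨H, h₁, h₂⟩ := cmp hc hD hd ho (res y)
  have h₃ := lm_cube hy k H
  refine ⟨_, H, (below_iff hy (by rw [length_ini])).2 (cube_le h₁ h₃), fun y'' hv hs j => ?_⟩
  obtain ⟨n₀, h₄⟩ := tail_cube h₃ hv hs
  obtain ⟨n₁, h₅⟩ := h₂ _ y'' j (h₄ n₀ le_rfl)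
  exact ⟨n₀ + n₁, fun n hn => ⟨h₅ n (by omega), h₄ n (by omega)⟩⟩

theorem gen_cube (hc : g.TDC) {C : g.Rs → Prop} (hC : g.Tm C) {D : ℕ → g.Cn → Prop}
    (hD : g.Tm fun z : ℕ × g.Cn => D z.1 z.2)
    (hm : ∀ j t R, C R → ∃ R', C R' ∧ RLe R' R ∧ Good (D j) t R') {R : g.Rs} (hR : C R) :
    ∃ H, RLe H R ∧ ∀ s y j, Cube s H y → ∃ c, D j c ∧ Cube c.1 c.2 y := by
  obtain ⟨H, h₁, h₂⟩ := sf hc hC (P := fun j t R => Good (D j) t R) (by fun_prop) hm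
    (fun _ _ _ _ h h' => h.mono h') hR
  refine ⟨H, h₁, fun s y j hy => ?_⟩
  exact h₂ j _ (tip_ini hy (n := s.length + 1 + j) (by omega))
    (le_trans (by omega) (le_lcode_ini _ _)) y (cube_ini hy (by omega))

theorem LU.unif (h : LU g) {α : Type*} [Cd g α] [RL g α] {ρ : g.Yy → α → Prop}
    (hρ : g.Tm fun z : g.Yy × α => ρ z.1 z.2) {c : g.Cn} (hc : NE c)
    (tot : ∀ y, Cube c.1 c.2 y → ∃ a, ρ y a) :
    ∃ c', CLe c' c ∧ ∃ F : g.Yy → α, g.Tm F ∧ ∀ y, Cube c'.1 c'.2 y → ρ y (F y) := by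
  obtain ⟨c', h₁, h₂ | ⟨F, h₂, h₃⟩⟩ := h (fun y r => ρ y (RL.dec r)) (by fun_prop) c hc
  · obtain ⟨y, hy⟩ := h₁.1
    obtain ⟨a, ha⟩ := tot y (h₁.2.2 y hy)
    exact absurd (by rwa [RL.dec_enc]) (h₂ y hy (RL.enc a))
  · exact ⟨c', h₁, fun y => RL.dec (F y), by fun_prop, h₃⟩

theorem LU.ram (h : LU g) {X : g.Yy → Prop} (hX : g.Tm X) {c : g.Cn} (hc : NE c) :
    ∃ c', CLe c' c ∧ ((∀ y, Cube c'.1 c'.2 y → X y) ∨ ∀ y, Cube c'.1 c'.2 y → ¬ X y) := by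
  obtain ⟨c', h₁, h₂ | ⟨F, -, h₃⟩⟩ := h (fun y _ => X y) (by fun_prop) c hc
  exacts [⟨c', h₁, Or.inr fun y hy => h₂ y hy default⟩, ⟨c', h₁, Or.inl h₃⟩]

section

variable {F : g.Yy → Fn g ℕ g.Yy} {t : St} {H : g.Rs} {b : ℕ}

/-- The invariant of the construction of a chain. -/
def ChInv (F : g.Yy → Fn g ℕ g.Yy) (t : St) (H : g.Rs) (b n : ℕ) (z : ℕ → St × ℕ) : Prop :=
  (∀ i, i ≤ n → b ≤ (z i).2 ∧ t.length ≤ (z i).1.length ∧
    ∃ y, Cube t H y ∧ ini y (z i).1.length = (z i).1) ∧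
  ∀ i, i < n → ∀ p, p ∈ (z i).1 → ∀ y, Cube (z (i + 1)).1 H y → ∃ m, F y (z (i + 1)).2 m = p

theorem ChInv.congr {n : ℕ} {z z' : ℕ → St × ℕ} (h : ChInv F t H b n z)
    (e : ∀ i, i < n + 1 → z' i = z i) : ChInv F t H b n z' :=
  ⟨fun i hi => by rw [e i (by omega)]; exact h.1 i hi,
    fun i hi => by rw [e i (by omega), e (i + 1) (by omega)]; exact h.2 i hi⟩

theorem ChInv.step (hb : b ≤ t.length)
    (hF : ∀ y, Cube t H y → ∀ k, b ≤ k → Below (ini y k) (F y k) y)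
    (hd : ∀ y, Cube t H y → ∀ k p, ∃ n₀, ∀ n, n₀ ≤ n →
      (∀ y', Cube (ini y n) H y' → ∃ m, F y' k m = p) ∨
        ∀ y', Cube (ini y n) H y' → ¬ ∃ m, F y' k m = p)
    {n : ℕ} {z : ℕ → St × ℕ} (h : ChInv F t H b n z) : ∃ z', ChInv F t H b (n + 1) z' ∧
      ∀ i, i ≤ n → (z' i).2 = (z i).2 ∧ (z i).1.length < (z' i).1.length ∧
        ∀ j, j < (z i).1.length → (z' i).1.getD j default = (z i).1.getD j default := by
  obtain ⟨w, hw, e⟩ : ∃ w, ChInv F t H b (n + 1) w ∧ ∀ i, i ≤ n → w i = z i := by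
    obtain ⟨-, h₁, y₀, h₂, h₃⟩ := h.1 n le_rfl
    refine ⟨fun i => if i ≤ n then z i else ((z n).1, (z n).1.length), ⟨fun i hi => ?_,
      fun i hi p hp y hy => ?_⟩, fun i hi => if_pos hi⟩
    · dsimp only
      split_ifs with h'
      exacts [h.1 i h', ⟨hb.trans h₁, h₁, y₀, h₂, h₃⟩]
    · simp only [if_pos (show i ≤ n by omega)] at hp
      by_cases h' : i + 1 ≤ n
      · simp only [if_pos h'] at hy ⊢
        exact h.2 i h' p hp y hy
      · simp only [if_neg h'] at hy ⊢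
        obtain rfl : i = n := by omega
        have := (hF y (cube_of_ini h₂ h₁ (h₃.symm ▸ hy)) _ (hb.trans h₁)).1
        rw [length_ini, hy.1] at this
        obtain ⟨k, -, hk⟩ := mem_ini.1 (this.symm ▸ hp)
        exact ⟨k, hk⟩
  obtain ⟨y₀, h₀, e₀⟩ := (hw.1 (n + 1) le_rfl).2.2
  let Y : ℕ → g.Yy := fun j => Nat.rec y₀
    (fun j y => lm (w (n - j)).1 (res (F y (w (n - j + 1)).2))) j
  have down : ∀ i y, i ≤ n → Cube t H y → ini y (w (i + 1)).1.length = (w (i + 1)).1 →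
      Cube t H (lm (w i).1 (res (F y (w (i + 1)).2))) ∧
      ini (lm (w i).1 (res (F y (w (i + 1)).2))) (w i).1.length = (w i).1 ∧
      Sub (lm (w i).1 (res (F y (w (i + 1)).2))) (F y (w (i + 1)).2) := by
    intro i y hi h₁ h₂
    obtain ⟨h₃, h₄, -⟩ := hw.1 (i + 1) (by omega)
    obtain ⟨-, h₅, y₁, h₆, h₇⟩ := hw.1 i (by omega)
    have h₈ := lm_cube h₆.2.1 (w i).1.length (res (F y (w (i + 1)).2))
    rw [h₇] at h₈
    have h₉ := hF y h₁ _ h₃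
    have hs := cube_res h₉.2.1 (fun p hp => (hw.2 i (by omega) p hp y
      (h₂ ▸ cube_ini h₁ h₄)).imp fun _ => Eq.symm) h₈
    exact ⟨sub_cube h₁ ⟨(ini_of_le (h₈.1.trans h₇.symm) h₅).trans h₆.1, h₈.2.1, hs.trans h₉.2.2⟩,
      h₈.1, hs⟩
  have hY : ∀ j, j ≤ n + 1 → Cube t H (Y j) ∧
      ini (Y j) (w (n + 1 - j)).1.length = (w (n + 1 - j)).1 := fun j => by
    induction j with
    | zero => exact fun _ => ⟨h₀, e₀⟩
    | succ j ih =>
      intro hj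
      obtain ⟨h₁, h₂⟩ := ih (by omega)
      rw [show n + 1 - j = n - j + 1 by omega] at h₂
      rw [show n + 1 - (j + 1) = n - j by omega]
      exact ⟨(down _ _ (by omega) h₁ h₂).1, (down _ _ (by omega) h₁ h₂).2.1⟩
  obtain ⟨y, hy, hs⟩ : ∃ y : ℕ → g.Yy, (∀ i, i ≤ n + 1 → Cube t H (y i) ∧
      ini (y i) (w i).1.length = (w i).1) ∧
      ∀ i, i ≤ n → Sub (y i) (F (y (i + 1)) (w (i + 1)).2) := by
    refine ⟨fun i => Y (n + 1 - i), fun i hi => ?_, fun i hi => ?_⟩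
    · have := hY (n + 1 - i) (by omega)
      rwa [show n + 1 - (n + 1 - i) = i by omega] at this
    · obtain ⟨h₁, h₂⟩ := hY (n - i) (by omega)
      rw [show n + 1 - (n - i) = n - (n - i) + 1 by omega] at h₂
      have := (down _ _ (by omega) h₁ h₂).2.2
      dsimp only
      rw [show n + 1 - i = n - i + 1 by omega, show n + 1 - (i + 1) = n - i by omega]
      convert this using 4
      omega
  have cut : ∀ i (l : St), ∃ m, i ≤ n + 1 → (w i).1.length < m ∧ ∀ p ∈ l,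
      (∃ m', F (y i) (w i).2 m' = p) → ∀ y', Cube (ini (y i) m) H y' →
        ∃ m', F y' (w i).2 m' = p := fun i l => by
    by_cases hi : i ≤ n + 1
    · suffices ∃ m₀, ∀ m, m₀ ≤ m → ∀ p ∈ l, (∃ m', F (y i) (w i).2 m' = p) →
          ∀ y', Cube (ini (y i) m) H y' → ∃ m', F y' (w i).2 m' = p from
        this.elim fun m₀ h => ⟨m₀ + (w i).1.length + 1, fun _ => ⟨by omega, h _ (by omega)⟩⟩
      induction l with
      | nil => exact ⟨0, by simp⟩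
      | cons a l ih =>
        obtain ⟨m₀, h₁⟩ := ih
        obtain ⟨m₁, h₂⟩ := hd _ (hy i hi).1 (w i).2 a
        refine ⟨m₀ + m₁ + t.length, fun m hm p hp h₃ => ?_⟩
        rcases List.mem_cons.1 hp with rfl | hp
        · exact (h₂ m (by omega)).resolve_right fun h => h _ (cube_ini (hy i hi).1 (by omega)) h₃
        · exact h₁ m (by omega) p hp h₃
    · exact ⟨0, fun h => absurd h hi⟩
  choose M hM using cut
  let m : ℕ → ℕ := fun i => Nat.rec (M 0 []) (fun i a => M (i + 1) (ini (y i) a)) i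
  have hm : ∀ i, i ≤ n + 1 → (w i).1.length < m i := fun i hi => by
    cases i with
    | zero => exact (hM 0 [] hi).1
    | succ i => exact (hM _ _ hi).1
  refine ⟨fun i => (ini (y i) (m i), (w i).2), ⟨fun i hi => ⟨(hw.1 i hi).1, ?_, y i, (hy i hi).1,
    by simp⟩, fun i hi p hp => (hM (i + 1) _ hi).2 p hp ?_⟩, fun i hi => ?_⟩
  · have := (hw.1 i hi).2.1
    have := hm i hi
    simp only [length_ini]
    omega
  · obtain ⟨k, -, rfl⟩ := mem_ini.1 hp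
    exact (hs i (by omega) k).imp fun _ => Eq.symm
  · have h₁ := hm i (by omega)
    have h₂ := (hy i (by omega)).2
    rw [← e i hi]
    refine ⟨rfl, by simpa using h₁, fun j hj => ?_⟩
    rw [getD_ini _ _ (hj.trans h₁), ← h₂, getD_ini _ _ hj]

end

/-- The descending chain lemma. -/
theorem chain (hc : g.TDC) (hu : LU g) {Q : g.Yy → g.Yy → Prop}
    (hQ : g.Tm fun z : g.Yy × g.Yy => Q z.1 z.2) {s : St} {R : g.Rs} (hne : NE (s, R))
    (ha : ∀ y y' y'', Q y y' → Below s y'' y' → Q y y'')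
    (hb : ∀ y, Cube s R y → ∀ k, s.length ≤ k → ∃ y', Below (ini y k) y' y ∧ Q y y') :
    ∃ f : Fn g ℕ g.Yy, ∀ i, Cube s R (f i) ∧ Q (f (i + 1)) (f i) := by
  obtain ⟨⟨t, H₀⟩, h₀, F, hF, h₁⟩ := hu.unif (α := Fn g ℕ g.Yy) (ρ := fun y f => ∀ k,
    s.length ≤ k → Below (ini y k) (f k) y ∧ Q y (f k)) (by fun_prop) hne fun y hy =>
      hc.cc (Q := fun k y' => s.length ≤ k → Below (ini y k) y' y ∧ Q y y') (by fun_prop)
        fun k => by
          by_cases hk : s.length ≤ k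
          exacts [(hb y hy k hk).imp fun _ h _ => h, ⟨y, fun h => absurd h hk⟩]
  let D : ℕ × Pt → g.Cn → Prop := fun a c => (∀ y, Cube c.1 c.2 y → ∃ m, F y a.1 m = a.2) ∨
    ∀ y, Cube c.1 c.2 y → ¬ ∃ m, F y a.1 m = a.2
  obtain ⟨H, hH, h₂⟩ := cmp hc (D := fun j => D (NL.dec g j)) (by fun_prop)
    (fun j c hc => hu.ram (by fun_prop) hc)
    (fun j c c' h h' => h.imp (fun h y hy => h y (h'.2.2 y hy)) fun h y hy => h y (h'.2.2 y hy)) H₀
  have h₃ : ∀ y, Cube t H y → ∀ k, s.length ≤ k → Below (ini y k) (F y k) y ∧ Q y (F y k) :=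
    fun y hy => h₁ y (cube_le hH hy)
  obtain ⟨σ, e₀, hσ⟩ := hc.dc (α := ℕ × Fn g ℕ (St × ℕ))
    (S := fun a => ChInv F t H s.length a.1 a.2) (by unfold ChInv; fun_prop)
    (Q := fun a a' => a'.1 = a.1 + 1 ∧ ∀ i, i ≤ a.1 → (a'.2 i).2 = (a.2 i).2 ∧
      (a.2 i).1.length < (a'.2 i).1.length ∧ ∀ j, j < (a.2 i).1.length →
        (a'.2 i).1.getD j default = (a.2 i).1.getD j default) (by fun_prop) (fun a h => by
      obtain ⟨z, h₄, h₅⟩ := h.step h₀.2.1 (fun y hy k hk => (h₃ y hy k hk).1) fun y hy k p => by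
        have := h₂ t y (NL.enc g (k, p)) hy
        rwa [NL.dec_enc] at this
      obtain ⟨z', e⟩ := exists_fn_fin (g := g) z (a.1 + 2)
      exact ⟨(a.1 + 1, z'), h₄.congr e, rfl, fun i hi => (e i (by omega)).symm ▸ h₅ i hi⟩)
    (a₀ := (0, ⟨fun _ => (t, s.length), by fun_prop⟩))
    ⟨fun _ _ => ⟨le_rfl, le_rfl, _, h₀.1.lm H, (h₀.1.lm H).1⟩, fun _ h => absurd h (by simp)⟩
  have e₁ : ∀ n, (σ n).1 = n := fun n => by
    induction n with
    | zero => rw [e₀]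
    | succ n ih => rw [(hσ n).2.1, ih]
  have inv : ∀ n, ChInv F t H s.length n (σ n).2 := fun n => by simpa only [e₁] using (hσ n).1
  have ext : ∀ i n, i ≤ n → ∀ n', n ≤ n' → ((σ n').2 i).2 = ((σ n).2 i).2 ∧
      ((σ n).2 i).1.length + n' ≤ ((σ n').2 i).1.length + n ∧ ∀ j, j < ((σ n).2 i).1.length →
        ((σ n').2 i).1.getD j default = ((σ n).2 i).1.getD j default := by
    intro i n hi n' hn
    induction n', hn using Nat.le_induction with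
    | base => exact ⟨rfl, le_rfl, fun _ _ => rfl⟩
    | succ n' hn ih =>
      obtain ⟨h₄, h₅, h₆⟩ := (hσ n').2.2 i (by rw [e₁]; omega)
      exact ⟨h₄.trans ih.1, by omega, fun j hj => (h₆ j (by omega)).trans (ih.2.2 j hj)⟩
  let f : Fn g ℕ g.Yy := ⟨fun i => ⟨fun j => ((σ (i + j + 1)).2 i).1.getD j default, by fun_prop⟩,
    by fun_prop⟩
  have len : ∀ i j, j < ((σ (i + j + 1)).2 i).1.length := fun i j => by
    have := (ext i i le_rfl (i + j + 1) (by omega)).2.1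
    omega
  have lim : ∀ i n, i ≤ n → ini (f i) ((σ n).2 i).1.length = ((σ n).2 i).1 := fun i n hi => by
    refine (ini_eq_iff.2 fun j hj => ?_).trans (ini_getD _ default)
    exact ((ext i _ (by omega) (i + j + 1 + n) (by omega)).2.2 j (len i j)).symm.trans
      ((ext i n hi _ (by omega)).2.2 j hj)
  have cube : ∀ i, Cube t H (f i) := fun i => cube_closed fun n => by
    obtain ⟨-, -, y, h₄, h₅⟩ := (inv (i + n + 1)).1 i (by omega)
    exact ⟨y, h₄, ini_of_le (h₅.trans (lim i _ (by omega)).symm) (len i n).le⟩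
  refine ⟨f, fun i => ?_⟩
  have h₄ : Cube s R (f i) := h₀.2.2 _ (cube_le hH (cube i))
  refine ⟨h₄, ha _ _ _ (h₃ _ (cube (i + 1)) _ ((inv (i + 1)).1 (i + 1) le_rfl).1).2
    ⟨h₄.1, h₄.2.1, fun j => ?_⟩⟩
  rw [← (ext (i + 1) _ le_rfl (i + j + 1) (by omega)).1]
  refine ((inv (i + j + 1)).2 i (by omega) _ ?_ _ ?_).imp fun _ => Eq.symm
  · rw [← lim i _ (by omega)]
    exact mem_ini.2 ⟨j, len i j, rfl⟩
  · rw [← lim (i + 1) _ (by omega)]
    exact cube_ini (cube _) ((inv _).1 _ (by omega)).2.1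

theorem Below.refl' {s : St} {R : g.Rs} {y : g.Yy} (h : Cube s R y) : Below s y y :=
  ⟨h.1, h.2.1, Sub.refl y⟩

theorem Below.trans' {s : St} {y y' y'' : g.Yy} (h : Below s y'' y') (h' : Below s y' y) :
    Below s y'' y := ⟨h.1, h.2.1, h.2.2.trans h'.2.2⟩

/-- Well-ordered families of open, fusion-dense sets have a common element. -/
theorem ep (hc : g.TDC) (hu : LU g) {I : Type*} [Cd g I] [WO g I] [Inhabited I]
    {D : I → g.Yy → Prop} (hD : g.Tm fun z : I × g.Yy => D z.1 z.2) {s : St} {R : g.Rs}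
    (hne : NE (s, R)) (ho : ∀ i y y', Cube s R y → D i y → Below s y' y → D i y')
    (hd : ∀ i y, Cube s R y → ∀ k, s.length ≤ k → ∃ y', Below (ini y k) y' y ∧ D i y') :
    ∃ y, Cube s R y ∧ ∀ i, D i y := by
  by_contra hcon
  have hno : ∀ y, Cube s R y → ∃ i, ¬ D i y := fun y hy => by
    by_contra h
    exact hcon ⟨y, hy, fun i => by_contra fun h' => h ⟨i, h'⟩⟩
  obtain ⟨f, hf⟩ := chain hc hu (Q := fun y y' => Cube s R y' ∧
      ∀ i, ¬ WO.lt g (g.least fun j => ¬ D j y) i → D i y') (by fun_prop) hne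
    (fun y y' y'' h h' => ⟨sub_cube h.1 h', fun i hi => ho i _ _ h.1 (h.2 i hi) h'⟩)
    (fun y hy k hk => by
      obtain ⟨y', h₁, h₂⟩ := hd (g.least fun j => ¬ D j y) y hy k hk
      have h₃ := h₁.mono hk hy.1
      refine ⟨y', h₁, sub_cube hy h₃, fun i hi => ?_⟩
      rcases WO.tri (g := g) i (g.least fun j => ¬ D j y) with e | rfl | e
      · exact ho i _ _ hy (by_contra fun h => least_min (P := fun j => ¬ D j y) h e) h₃
      · exact h₂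
      · exact absurd e hi)
  obtain ⟨_, ⟨i, rfl⟩, hi⟩ := (WO.wf (g := g) (α := I)).has_min
    (Set.range fun i => g.least fun j => ¬ D j (f i)) (Set.range_nonempty _)
  exact least_spec (hno _ (hf i).1) ((hf i).2.2 _ (hi _ ⟨i + 1, rfl⟩))

theorem null_dense (hc : g.TDC) (hu : LU g) {X : g.Yy → Prop} (hX : g.Tm X) {s : St} {R : g.Rs}
    (h : ∀ c', CLe c' (s, R) → ∃ y, Cube c'.1 c'.2 y ∧ ¬ X y) {y : g.Yy} (hy : Cube s R y)
    {k : ℕ} (hk : s.length ≤ k) :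
    ∃ y', Below (ini y k) y' y ∧ ∀ y'', Below s y'' y' → ¬ X y'' := by
  obtain ⟨y', H, h₁, h₂⟩ := fdense hc (D := fun _ c => (∀ y, Cube c.1 c.2 y → ¬ X y) ∨
      ∀ y, Cube c.1 c.2 y → ¬ Cube s R y) (by fun_prop)
    (fun _ c ⟨y₀, h₀⟩ => by
      have e₁ := cle_ini (n := max s.length c.1.length) h₀ (le_max_right _ _)
      obtain ⟨c₂, e₂, e₃ | e₃⟩ := hu.ram (X := Cube s R) (by fun_prop) e₁.1
      · have e₄ : CLe c₂ (s, R) := ⟨e₂.1, by
          have := e₂.2.1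
          simp only [length_ini] at this
          exact (le_max_left _ _).trans this, e₃⟩
        obtain ⟨c₃, e₅, e₆ | e₆⟩ := hu.ram hX e₂.1
        · obtain ⟨z, hz, hz'⟩ := h c₃ (e₅.trans e₄)
          exact absurd (e₆ z hz) hz'
        · exact ⟨c₃, e₅.trans (e₂.trans e₁), Or.inl e₆⟩
      · exact ⟨c₂, e₂.trans e₁, Or.inr e₃⟩)
    (fun _ c c' h h' => h.imp (fun e y hy => e y (h'.2.2 y hy)) fun e y hy => e y (h'.2.2 y hy))
    hy.2.1 k
  refine ⟨y', h₁, fun y'' h₃ => ?_⟩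
  obtain ⟨n, hn⟩ := h₂ y'' h₃.2.1 h₃.2.2 0
  rcases hn n le_rfl with ⟨e | e, e'⟩
  · exact e _ e'
  · exact absurd (sub_cube hy (h₃.trans' (h₁.mono hk hy.1))) (e _ e')

theorem bound_dns (hc : g.TDC) (hu : LU g) {T : Type*} [Cd g T] [Bd g T] [LinearOrder T]
    [OT g T] [Inhabited T] (hT : g.Unc T) {F : g.Yy → T} (hF : g.Tm F) :
    Dns fun c : g.Cn => ∃ b, ∀ y, Cube c.1 c.2 y → F y < b := by
  intro c hne
  by_contra hcon
  have hno : ∀ b c', CLe c' c → ∃ y, Cube c'.1 c'.2 y ∧ ¬ F y < b := fun b c' h => by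
    by_contra h'
    exact hcon ⟨c', h, b, fun y hy => by_contra fun e => h' ⟨y, hy, e⟩⟩
  obtain ⟨y, hy, h⟩ := ep hc hu (I := T) (D := fun b y => ∀ y'', Below c.1 y'' y → ¬ F y'' < b)
    (by fun_prop) (s := c.1) (R := c.2) hne (fun b y y' _ h h' y'' e => h y'' (e.trans' h'))
    (fun b y hy k hk => null_dense hc hu (X := fun y => F y < b) (by fun_prop) (hno b) hy hk)
  obtain ⟨b, hb⟩ := hT ⟨fun _ => F y, by fun_prop⟩
  exact h b y (Below.refl' hy) (hb 0)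

theorem bound_family (hc : g.TDC) (hu : LU g) {T : Type*} [Cd g T] [Bd g T] [LinearOrder T]
    [OT g T] [Inhabited T] (hT : g.Unc T) {F : T → g.Yy → T}
    (hF : g.Tm fun z : T × g.Yy => F z.1 z.2) {s : St} {R : g.Rs} (hne : NE (s, R)) :
    ∃ y, Cube s R y ∧ ∀ a, ∃ b, ∀ y', Below s y' y → F a y' < b := by
  refine ep hc hu (I := T) (D := fun a y => ∃ b, ∀ y', Below s y' y → F a y' < b) (by fun_prop) hne
    (fun a y y' _ ⟨b, h⟩ h' => ⟨b, fun y'' e => h y'' (e.trans' h')⟩) fun a y hy k _ => ?_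
  obtain ⟨y', H, h₁, h₂⟩ := fdense hc (D := fun _ c => ∃ b, ∀ y, Cube c.1 c.2 y → F a y < b)
    (by fun_prop) (fun _ => bound_dns hc hu hT (by fun_prop))
    (fun _ c c' ⟨b, h⟩ h' => ⟨b, fun y hy => h y (h'.2.2 y hy)⟩) hy.2.1 k
  obtain ⟨b, hb⟩ := hT ⟨fun n => g.least fun b => ∀ y, Cube (NL.dec g n) H y → F a y < b,
    by fun_prop⟩
  refine ⟨y', h₁, b, fun y'' h₃ => ?_⟩
  obtain ⟨n, hn⟩ := h₂ y'' h₃.2.1 h₃.2.2 0
  obtain ⟨e, e'⟩ := hn n le_rfl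
  have := hb (NL.enc g (ini y'' n))
  simp only [NL.dec_enc] at this
  exact (least_spec e y'' e').trans this

/-- Local uniformization by sets of reals. -/
theorem wadge_unif (hd : g.TDet ℕ) (hc : g.TDC) (hu : LU g) {P : g.Yy → g.PR → Prop}
    (hP : g.Tm fun z : g.Yy × g.PR => P z.1 z.2) {c : g.Cn} (hne : NE c)
    (tot : ∀ y, Cube c.1 c.2 y → ∃ A, P y A) :
    ∃ c', CLe c' c ∧ ∃ F : g.Yy → g.PR, g.Tm F ∧ ∀ y, Cube c'.1 c'.2 y → P y (F y) := by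
  by_cases h : ∃ A c', CLe c' c ∧ ∀ y, Cube c'.1 c'.2 y → ∃ B, Red B A ∧ P y B
  · obtain ⟨A, c', h₁, h₂⟩ := h
    obtain ⟨dc, h₃, h₄⟩ := red_code (g := g)
    obtain ⟨c'', h₅, F, h₆, h₇⟩ := hu.unif (ρ := fun y (x : g.Re) => P y (dc A x)) (by fun_prop)
      h₁.1 fun y hy => by
        obtain ⟨B, e₁, e₂⟩ := h₂ y hy
        obtain ⟨x, rfl⟩ := h₄ _ _ e₁
        exact ⟨x, e₂⟩
    exact ⟨c'', h₅.trans h₁, fun y => dc A (F y), by fun_prop, h₇⟩
  have hno : ∀ A c', CLe c' c → ∃ y, Cube c'.1 c'.2 y ∧ ¬ ∃ B, Red B A ∧ P y B :=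
    fun A c' e => by
      by_contra h'
      exact h ⟨A, c', e, fun y hy => by_contra fun e' => h' ⟨y, hy, e'⟩⟩
  obtain ⟨f, hf⟩ := chain hc hu (Q := fun y y' => ∃ A, P y A ∧
      ∀ y'', Below c.1 y'' y' → ¬ ∃ B, Red B A ∧ P y'' B) (by fun_prop) (s := c.1) (R := c.2) hne
    (fun y y' y'' ⟨A, e₁, e₂⟩ h' => ⟨A, e₁, fun z hz => e₂ z (hz.trans' h')⟩)
    (fun y hy k hk => by
      obtain ⟨A, hA⟩ := tot y hy
      obtain ⟨y', h₁, h₂⟩ := null_dense hc hu (X := fun y => ∃ B, Red B A ∧ P y B) (by fun_prop)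
        (hno A) hy hk
      exact ⟨y', h₁, A, hA, h₂⟩)
  obtain ⟨A, ⟨i, hi⟩, hA⟩ := wadge_min hd hc (P := fun A => ∃ i, P (f i) A) (by fun_prop)
    ((tot _ (hf 0).1).imp fun A e => ⟨0, e⟩)
  obtain ⟨A', e₁, e₂⟩ := (hf i).2
  exact absurd ⟨A, hA A' ⟨i + 1, e₁⟩, hi⟩ (e₂ _ (Below.refl' (hf i).1))

/-- The forcing relation over a family of reservoirs. -/
theorem gen_exists_Fp {Γ T J : Type*} [Cd g Γ] [Cd g T] [Bd g T] [Cd g J] [Bd g J]
    {ch : Γ → J → J → Prop} (wf : ∀ x, WellFounded (ch x))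
    (hch : g.Tm fun z : Γ × J × J => ch z.1 z.2.1 z.2.2) {bas : Γ → J → St → Prop}
    (hbas : g.Tm fun z : Γ × J × St => bas z.1 z.2.1 z.2.2) :
    ∃ Fp : Γ × Fn g T g.Rs → J → g.Cn → Prop,
      g.Tm (fun z : (Γ × Fn g T g.Rs) × J × g.Cn => Fp z.1 z.2.1 z.2.2) ∧
      ∀ x j c, Fp x j c ↔ (∀ y, Cube c.1 c.2 y → ∀ n, bas x.1 j (ini y n)) ∧
        ∀ j', ch x.1 j' j → ∀ c', CLe c' c → (∃ b, x.2 b = c'.2) → ¬ Fp x j' c' := by
  obtain ⟨Ψ, hΨ, eΨ⟩ : ∃ Ψ : Γ × Fn g T g.Rs → J → Fn g J (Fn g g.Cn Prop) → Fn g g.Cn Prop,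
      g.Tm (fun z : (Γ × Fn g T g.Rs) × J × Fn g J (Fn g g.Cn Prop) => Ψ z.1 z.2.1 z.2.2) ∧
      ∀ x j f c, Ψ x j f c ↔ (∀ y, Cube c.1 c.2 y → ∀ n, bas x.1 j (ini y n)) ∧
        ∀ j', ch x.1 j' j → ∀ c', CLe c' c → (∃ b, x.2 b = c'.2) → ¬ f j' c' :=
    ⟨fun x j f => ⟨fun c => (∀ y, Cube c.1 c.2 y → ∀ n, bas x.1 j (ini y n)) ∧
      ∀ j', ch x.1 j' j → ∀ c', CLe c' c → (∃ b, x.2 b = c'.2) → ¬ f j' c', by fun_prop⟩,
      by fun_prop, fun _ _ _ _ => Iff.rfl⟩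
  obtain ⟨F, h₁, h₂⟩ : ∃ F : Γ × Fn g T g.Rs → Fn g J (Fn g g.Cn Prop), g.Tm F ∧
      ∀ x j, F x j = Ψ x j (F x) := ⟨fun x => g.rfix (ch x.1) (Ψ x),
    tm_rfix (r := fun x : Γ × Fn g T g.Rs => ch x.1) (fun x => wf x.1) (by fun_prop) hΨ,
    fun x j => rfix_eq (wf x.1) (by fun_prop) (by fun_prop) (fun a f h e => Fn.ext' fun c => propext (by
      rw [eΨ, eΨ]
      exact and_congr_right fun _ => forall_congr' fun j' => forall_congr' fun hj => by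
        rw [e j' hj])) j⟩
  refine ⟨fun x j c => F x j c, by fun_prop, fun x j c => ?_⟩
  show F x j c ↔ _
  rw [h₂, eΨ]

/-- The Mathias property inside a closed family. -/
theorem gen_good {C : g.Rs → Prop} {D : g.Cn → Prop} (hm : ∀ R R', C R → C R' → C (meet R R'))
    (hd : ∀ c : g.Cn, C c.2 → NE c → ∃ c' : g.Cn, C c'.2 ∧ CLe c' c ∧ D c')
    {st : St → g.Rs → g.Rs} (h₀ : g.Tm fun z : St × g.Rs => st z.1 z.2)
    (hst : ∀ t R, (C (st t R) ∧ RLe (st t R) R ∧ Good D t (st t R)) ∨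
      (st t R = R ∧ ∀ R', C R' → RLe R' R → ¬ Good D t R')) {s : St} {R : g.Rs} (hR : C R)
    (B : Fn g St Prop) (hB : ∀ t, B t ↔ ¬ Good D t (fus st s R))
    (h₂ : C (fus (pig B) s (fus st s R))) : RLe (fus st s R) R ∧ Good D s (fus st s R) := by
  have hle : ∀ t R, RLe (st t R) R := fun t R => by
    rcases hst t R with h | h
    · exact h.2.1
    · rw [h.1]; exact RLe.refl R
  have hC : ∀ t R, C R → C (st t R) := fun t R hR => by
    rcases hst t R with h | h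
    · exact h.1
    · rw [h.1]; exact hR
  refine ⟨(fus_le h₀ hle s R).trans (hle s R), mp_core hm hd B hB (fun t ht => ?_) h₂⟩
  obtain ⟨R', -, hc, hy⟩ := fus_tip h₀ hle ht
  rcases hst t R' with h | h
  · exact Or.inl fun y hy' => h.2.2 y (hy y hy')
  · refine Or.inr fun R'' hR'' hle' hg => h.2 (meet R' R'') (hm _ _ (hc C hR hC) hR'')
      (meet_le _ _) fun y hy' => hg y ?_
    have h₃ : Cube t R'' (lm t R'') := NE.lm (s := t) (R := meet R' R'') ⟨y, hy'⟩ R''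
    have h₄ : Cube t R' (lm t R'') := by
      have := hy _ (cube_le hle' h₃)
      rwa [h.1] at this
    exact (meet_cube h₄ h₃).2 y hy'

/-- Forcing over a canonical closed family of reservoirs decides a system of sets. -/
theorem exists_generic {Γ T J : Type*} [Cd g Γ] [Cd g T] [Bd g T] [LinearOrder T] [OT g T]
    [Inhabited T] [Cd g J] [Bd g J] [WO g J] [Inhabited J] (hT : g.Unc T)
    (hct : ∀ h : T → g.Rs, g.Tm h → ∃ e : Fn g ℕ g.Rs, ∀ w, ∃ n, e n = h w)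
    {ch : Γ → J → J → Prop} (wf : ∀ x, WellFounded (ch x))
    (hch : g.Tm fun z : Γ × J × J => ch z.1 z.2.1 z.2.2) {bas : Γ → J → St → Prop}
    (hbas : g.Tm fun z : Γ × J × St => bas z.1 z.2.1 z.2.2) {A : Γ → J → g.Yy → Prop}
    (hA : ∀ x j y, A x j y ↔ (∀ n, bas x j (ini y n)) ∧ ∀ j', ch x j' j → ¬ A x j' y)
    (R₀ : g.Rs) : ∃ (ρ : Γ → T → g.Rs) (D : Γ → J → g.Cn → Prop),
      g.Tm (fun z : Γ × T => ρ z.1 z.2) ∧ g.Tm (fun z : Γ × J × g.Cn => D z.1 z.2.1 z.2.2) ∧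
      ∀ x, (∃ b, ρ x b = R₀) ∧ (∀ j c, D x j c → ∃ b, ρ x b = c.2) ∧
        (∀ j t b, ∃ b', RLe (ρ x b') (ρ x b) ∧ Good (D x j) t (ρ x b')) ∧
        ∀ y j, (∀ j, ∃ c, D x j c ∧ Cube c.1 c.2 y) → A x j y → ∃ c : g.Cn, Cube c.1 c.2 y ∧
          ∀ y', Cube c.1 c.2 y' → (∀ j, ∃ c, D x j c ∧ Cube c.1 c.2 y') → A x j y' := by
  classical
  obtain ⟨Fp, hFp, eFp⟩ := gen_exists_Fp (T := T) wf hch hbas
  obtain ⟨D, hD, eD⟩ : ∃ D : Γ × Fn g T g.Rs → J → g.Cn → Prop,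
      g.Tm (fun z : (Γ × Fn g T g.Rs) × J × g.Cn => D z.1 z.2.1 z.2.2) ∧
      ∀ x j c, D x j c ↔ (∃ b, x.2 b = c.2) ∧ (Fp x j c ∨
        (∃ n, ∀ y, Cube c.1 c.2 y → ¬ bas x.1 j (ini y n)) ∨ ∃ j', ch x.1 j' j ∧ Fp x j' c) :=
    ⟨fun x j c => (∃ b, x.2 b = c.2) ∧ (Fp x j c ∨
      (∃ n, ∀ y, Cube c.1 c.2 y → ¬ bas x.1 j (ini y n)) ∨ ∃ j', ch x.1 j' j ∧ Fp x j' c),
      by fun_prop, fun _ _ _ => Iff.rfl⟩
  obtain ⟨st, hst, est⟩ : ∃ st : (Γ × Fn g T g.Rs) × J → St → g.Rs → g.Rs,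
      g.Tm (fun z : ((Γ × Fn g T g.Rs) × J) × St × g.Rs => st z.1 z.2.1 z.2.2) ∧
      ∀ x t R, st x t R = if ∃ b, RLe (x.1.2 b) R ∧ Good (D x.1 x.2) t (x.1.2 b) then
        x.1.2 (g.least fun b => RLe (x.1.2 b) R ∧ Good (D x.1 x.2) t (x.1.2 b)) else R :=
    ⟨fun x t R => if ∃ b, RLe (x.1.2 b) R ∧ Good (D x.1 x.2) t (x.1.2 b) then
      x.1.2 (g.least fun b => RLe (x.1.2 b) R ∧ Good (D x.1 x.2) t (x.1.2 b)) else R,
      by fun_prop, fun _ _ _ => rfl⟩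
  obtain ⟨B, hB, eB⟩ : ∃ B : (Γ × Fn g T g.Rs) × J → g.Rs → Fn g St Prop,
      g.Tm (fun z : ((Γ × Fn g T g.Rs) × J) × g.Rs => B z.1 z.2) ∧
      ∀ x R t, B x R t ↔ ¬ Good (D x.1 x.2) t R :=
    ⟨fun x R => ⟨fun t => ¬ Good (D x.1 x.2) t R, by fun_prop⟩, by fun_prop,
      fun _ _ _ => Iff.rfl⟩
  obtain ⟨ρ, hρ, hcl⟩ := exists_closed (Γ := Γ) (K := ℕ × T × T × J × St) hT hct
    (Out := fun x r k => if k.1 = 0 then meet (r k.2.1) (r k.2.2.1) else if k.1 = 1 then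
      fus (st ((x, r), k.2.2.2.1)) k.2.2.2.2 (r k.2.1) else
      fus (pig (B ((x, r), k.2.2.2.1) (r k.2.1))) k.2.2.2.2 (r k.2.1)) (by fun_prop) R₀
  refine ⟨fun x b => ρ x b, fun x => D (x, ρ x), by fun_prop, by fun_prop, fun x => ?_⟩
  obtain ⟨h₀, hk⟩ := hcl x
  have hm : ∀ R R', (∃ b, ρ x b = R) → (∃ b, ρ x b = R') → ∃ b, ρ x b = meet R R' := by
    rintro _ _ ⟨b, rfl⟩ ⟨b', rfl⟩
    simpa using hk (0, b, b', default, default)
  have her : ∀ j c c', Fp (x, ρ x) j c → CLe c' c → Fp (x, ρ x) j c' := fun j c c' h hc => by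
    rw [eFp] at h ⊢
    exact ⟨fun y hy => h.1 y (hc.2.2 y hy), fun j' hj c'' hc' => h.2 j' hj c'' (hc'.trans hc)⟩
  have hd : ∀ j (c : g.Cn), (∃ b, ρ x b = c.2) → NE c →
      ∃ c' : g.Cn, (∃ b, ρ x b = c'.2) ∧ CLe c' c ∧ D (x, ρ x) j c' := fun j c hc hne => by
    by_cases h : Fp (x, ρ x) j c
    · exact ⟨c, hc, CLe.refl hne, (eD _ _ _).2 ⟨hc, Or.inl h⟩⟩
    rw [eFp, not_and_or] at h
    rcases h with h | h
    · push Not at h
      obtain ⟨y, hy, n, hn⟩ := h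
      refine ⟨(ini y (max n c.1.length), c.2), hc, cle_ini hy (le_max_right _ _),
        (eD _ _ _).2 ⟨hc, Or.inr (Or.inl ⟨n, fun y' hy' => ?_⟩)⟩⟩
      have e : ini y' (max n c.1.length) = ini y (max n c.1.length) := by simpa using hy'.1
      have e' : ini y' n = ini y n :=
        ini_eq_iff.2 fun k hk => ini_eq_iff.1 e k (hk.trans_le (le_max_left _ _))
      rwa [e']
    · push Not at h
      obtain ⟨j', hj, c', h₁, h₂, h₃⟩ := h
      exact ⟨c', h₂, h₁, (eD _ _ _).2 ⟨h₂, Or.inr (Or.inr ⟨j', hj, h₃⟩)⟩⟩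
  have truth : ∀ y, (∀ j, ∃ c, D (x, ρ x) j c ∧ Cube c.1 c.2 y) → ∀ j, A x j y ↔
      ∃ c : g.Cn, (∃ b, ρ x b = c.2) ∧ Cube c.1 c.2 y ∧ Fp (x, ρ x) j c := fun y hy j => by
    induction j using (wf x).induction with
    | _ j ih =>
      rw [hA]
      constructor
      · rintro ⟨h₁, h₂⟩
        obtain ⟨c, hc, hyc⟩ := hy j
        obtain ⟨hc₀, h | ⟨n, h⟩ | ⟨j', hj, h⟩⟩ := (eD _ _ _).1 hc
        · exact ⟨c, hc₀, hyc, h⟩
        · exact absurd (h₁ n) (h y hyc)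
        · exact absurd ((ih j' hj).2 ⟨c, hc₀, hyc, h⟩) (h₂ j' hj)
      · rintro ⟨c, hc₀, hyc, h⟩
        refine ⟨((eFp _ _ _).1 h).1 y hyc, fun j' hj hA' => ?_⟩
        obtain ⟨c', hc₀', hyc', h'⟩ := (ih j' hj).1 hA'
        obtain ⟨-, h₁, h₂⟩ := cle_meet hyc hyc' (le_max_left _ _) (le_max_right _ _)
        exact ((eFp _ _ _).1 h).2 j' hj _ h₁ (hm _ _ hc₀ hc₀') (her j' c' _ h' h₂)
  refine ⟨h₀, fun j c h => ((eD _ _ _).1 h).1, fun j t b => ?_, fun y j hy hAy => ?_⟩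
  · obtain ⟨b₁, hb₁⟩ : ∃ b₁, ρ x b₁ = fus (st ((x, ρ x), j)) t (ρ x b) := by
      simpa using hk (1, b, b, j, t)
    obtain ⟨b₂, hb₂⟩ : ∃ b₂, ρ x b₂ = fus (pig (B ((x, ρ x), j) (ρ x b₁))) t (ρ x b₁) := by
      simpa using hk (2, b₁, b₁, j, t)
    refine ⟨b₁, ?_⟩
    show RLe (ρ x b₁) (ρ x b) ∧ Good (D (x, ρ x) j) t (ρ x b₁)
    rw [hb₁] at hb₂ ⊢
    refine gen_good (C := fun R => ∃ b, ρ x b = R) hm (hd j) (by fun_prop) (fun t R => ?_)
      ⟨b, rfl⟩ _ (eB _ _) ⟨b₂, hb₂⟩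
    rw [est]
    split_ifs with h
    · exact Or.inl ⟨⟨_, rfl⟩, least_spec (g := g) h⟩
    · refine Or.inr ⟨rfl, ?_⟩
      rintro _ ⟨b', rfl⟩ h₁ h₂
      exact h ⟨b', h₁, h₂⟩
  · obtain ⟨c, hc₀, hyc, h⟩ := (truth y hy j).1 hAy
    exact ⟨c, hyc, fun y' hy' hg => (truth y' hg j).2 ⟨c, hc₀, hy', h⟩⟩

theorem lu_of_tib (hd : g.TDet ℕ) (hc : g.TDC) (hb : g.TIB) {T : Type (u + 1)} [Cd g T] [Bd g T]
    [LinearOrder T] [OT g T] [Inhabited T] (hT : g.Unc T) : LU g := by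
  intro ρ hρ c hne
  obtain ⟨k, hk, F, i₀, hF, hs, hA⟩ := hb (fun x => ρ (yx x) (plusOdd x)) (by fun_prop)
  haveI : Inhabited (Elt k) := ⟨i₀⟩
  obtain ⟨J, _, _, _, _, ch, bas, A, root, wf, hch, hbas, hAA, hroot, hG⟩ :=
    exists_wsys hd hc hT hF hs i₀
  obtain ⟨ρ', D, hρ', hD, hgen⟩ := exists_generic (Γ := g.PR) hT
    (fun h hh => ctbl_of_wo hd hc hh) wf hch hbas hAA c.2
  obtain ⟨e₁, he₁⟩ := ae_range hd hc (h := ρ') hρ'
  have tmD : ∀ X j, g.Tm fun z : St × ℕ => D X j (z.1, e₁ z.2) := fun X j => by fun_prop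
  obtain ⟨e₂, he₂⟩ := ae_range hd hc (W := J) (α := Fn g (St × ℕ) Prop)
    (h := fun X j => ⟨fun z => D X j (z.1, e₁ z.2), tmD X j⟩) (by fun_prop)
  obtain ⟨d₀, h₁, h₂⟩ := (he₁.and he₂).ex
  obtain ⟨H, hH, hgc⟩ := gen_cube hc (C := fun R => ∃ k, e₁ k = R) (by fun_prop)
    (D := fun n c => ∃ k, c.2 = e₁ k ∧ e₂ n (c.1, k)) (by fun_prop) (fun n t R hR => by
      obtain ⟨j, hj⟩ := (h₂ _).2 ⟨n, rfl⟩
      obtain ⟨b, rfl⟩ := (h₁ R).2 hR
      obtain ⟨-, hg₂, hg₃, -⟩ := hgen (Xs d₀)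
      obtain ⟨b', hle, hgood⟩ := hg₃ j t b
      refine ⟨_, (h₁ _).1 ⟨b', rfl⟩, hle, fun y hy => ?_⟩
      obtain ⟨c', hc', hy'⟩ := hgood y hy
      obtain ⟨m, hm⟩ := (h₁ _).1 (hg₂ j c' hc')
      refine ⟨c', ⟨m, hm.symm, ?_⟩, hy'⟩
      rw [← hj]
      show D (Xs d₀) j (c'.1, e₁ m)
      rw [hm]
      exact hc') (R := c.2) ((h₁ _).1 (hgen (Xs d₀)).1)
  have hcH : CLe (c.1, H) c := cle_of_rle (s := c.1) (R := c.2) hne hH
  by_cases hw : ∀ y, Cube c.1 H y → ∀ r, ¬ ρ y r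
  · exact ⟨(c.1, H), hcH, Or.inl hw⟩
  push Not at hw
  obtain ⟨y, hy, r, hr⟩ := hw
  obtain ⟨d, ⟨-, h₄⟩, h₅⟩ := ((he₁.and he₂).and (ae_fine (plusJoin y r))).ex
  have gen : ∀ y', Cube c.1 H y' → ∀ j, ∃ c', D (Xs d) j c' ∧ Cube c'.1 c'.2 y' := by
    intro y' hy' j
    obtain ⟨n, hn⟩ := (h₄ _).1 ⟨j, rfl⟩
    obtain ⟨c', ⟨m, hm, hm'⟩, hc'⟩ := hgc c.1 y' n hy'
    refine ⟨c', ?_, hc'⟩
    rw [hn] at hm'
    change D (Xs d) j (c'.1, e₁ m) at hm'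
    rwa [← hm] at hm'
  have hAy : A (Xs d) root y := by
    have := hroot (Xs d) (plusJoin y r) h₅ ((hA _).2 (by rwa [yx_plusJoin, plusOdd_plusJoin]))
    rwa [yx_plusJoin] at this
  obtain ⟨c₁, hc₁, hall⟩ := (hgen (Xs d)).2.2.2 y root (gen y hy) hAy
  obtain ⟨G, tmG, hGs⟩ := hG d
  obtain ⟨-, l₁, l₂⟩ := cle_meet (c := (c.1, H)) (c' := c₁) (n := max c.1.length c₁.1.length)
    hy hc₁ (le_max_left _ _) (le_max_right _ _)
  refine ⟨_, l₁.trans hcH, Or.inr ⟨fun y' => plusOdd (G y'), by fun_prop, fun y' hy' => ?_⟩⟩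
  obtain ⟨a₁, a₂⟩ := hGs y' (hall y' (l₂.2.2 y' hy') (gen y' (l₁.2.2 y' hy')))
  have := (hA _).1 a₁
  rwa [a₂] at this

/-- A tree of positions whose children are dense: some cube consists of limits of branches. -/
theorem bm_tree (hc : g.TDC) {π : Type v} [Cd g π] [RL g π] {last : π → g.Cn}
    (hl : g.Tm last) {T : π → Prop} (hT : g.Tm T) {ch : π → π → Prop}
    (hch : g.Tm fun z : π × π => ch z.1 z.2)
    (dense : ∀ p, T p → ∀ c, CLe c (last p) → ∃ p', T p' ∧ ch p p' ∧ CLe (last p') c)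
    {p₀ : π} (h₀ : T p₀) : ∃ H, RLe H (last p₀).2 ∧ ∀ y, Cube (last p₀).1 H y →
      ∃ f : Fn g ℕ π, f 0 = p₀ ∧ ∀ n, (T (f n) ∧ Cube (last (f n)).1 (last (f n)).2 y) ∧
        ch (f n) (f (n + 1)) := by
  let D : π → g.Cn → Prop := fun p c => T p → (∃ p', T p' ∧ ch p p' ∧ CLe c (last p')) ∨
    ∀ y, Cube c.1 c.2 y → ¬ Cube (last p).1 (last p).2 y
  have hD : g.Tm fun z : π × g.Cn => D z.1 z.2 := by
    simp only [D]
    fun_prop
  have ho : ∀ p, Opn (D p) := by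
    intro p c c' h h' hp
    rcases h hp with ⟨p', h₁, h₂, h₃⟩ | h
    exacts [Or.inl ⟨p', h₁, h₂, h'.trans h₃⟩, Or.inr fun y hy => h y (h'.2.2 y hy)]
  have hd : ∀ p, Dns (D p) := by
    intro p c hne
    by_cases h : T p ∧ ∃ y, Cube c.1 c.2 y ∧ Cube (last p).1 (last p).2 y
    · obtain ⟨hp, y, h₁, h₂⟩ := h
      obtain ⟨-, h₃, h₄⟩ := cle_meet h₁ h₂ (le_max_left _ _) (le_max_right _ _)
      obtain ⟨p', h₅, h₆, h₇⟩ := dense p hp _ h₄
      exact ⟨last p', h₇.trans h₃, fun _ => Or.inl ⟨p', h₅, h₆, CLe.refl h₇.1⟩⟩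
    · exact ⟨c, CLe.refl hne, fun hp => Or.inr fun y h₁ h₂ => h ⟨hp, y, h₁, h₂⟩⟩
  obtain ⟨F, hF₀, hF⟩ := hc.dc (α := g.Rs × Fn g ℕ π) (S := fun _ => True) (by fun_prop)
    (Q := fun a b => RLe b.1 a.1 ∧ ∀ j s y, Cube s b.1 y → T (a.2 j) →
      Cube (last (a.2 j)).1 (last (a.2 j)).2 y →
        ∃ j', T (b.2 j') ∧ ch (a.2 j) (b.2 j') ∧ Cube (last (b.2 j')).1 (last (b.2 j')).2 y)
    (by fun_prop) (fun a _ => by
      obtain ⟨H, h₁, h₂⟩ := cmp hc (D := fun j => D (a.2 j)) (by fun_prop) (fun _ => hd _)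
        (fun _ => ho _) a.1
      obtain ⟨G, hG⟩ := hc.cc (β := ℕ × St) (α := π)
        (Q := fun b p' => (∃ p', T p' ∧ ch (a.2 b.1) p' ∧ CLe (b.2, H) (last p')) →
          T p' ∧ ch (a.2 b.1) p' ∧ CLe (b.2, H) (last p')) (by fun_prop) fun b => by
            by_cases h : ∃ p', T p' ∧ ch (a.2 b.1) p' ∧ CLe (b.2, H) (last p')
            · obtain ⟨p', h'⟩ := h
              exact ⟨p', fun _ => h'⟩
            · exact ⟨p₀, fun h' => absurd h' h⟩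
      refine ⟨(H, ⟨fun k => G (NL.dec g k), by fun_prop⟩), trivial, h₁,
        fun j s y hy hp hy' => ?_⟩
      obtain ⟨n₀, hn⟩ := h₂ s y j hy
      have h₃ : Cube (ini y (max n₀ s.length)) H y := cube_ini hy (le_max_right _ _)
      rcases hn _ (le_max_left n₀ s.length) hp with h | h
      · obtain ⟨h₄, h₅, h₆⟩ := hG (j, ini y (max n₀ s.length)) h
        refine ⟨NL.enc g (j, ini y (max n₀ s.length)), ?_⟩
        simp only [NL.dec_enc]
        exact ⟨h₄, h₅, h₆.2.2 y h₃⟩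
      · exact absurd hy' (h y h₃))
    (a₀ := ((last p₀).2, ⟨fun _ => p₀, by fun_prop⟩)) trivial
  let S : Fn g ℕ g.Rs := ⟨fun n => (F n).1, by fun_prop⟩
  have hS : ∀ k, RLe (S (k + 1)) (S k) := fun k => (hF k).2.1
  have hS' : ∀ k m, k ≤ m → RLe (S m) (S k) := fun k m h => by
    induction m, h using Nat.le_induction with
    | base => exact RLe.refl _
    | succ m _ ih => exact (hS m).trans ih
  have hH : RLe (diag S) (last p₀).2 := by
    have := diag_le hS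
    rwa [show S 0 = (last p₀).2 from congrArg Prod.fst hF₀] at this
  refine ⟨diag S, hH, fun y hy => ?_⟩
  have h₁ : ∀ n, ∃ s, Cube s (S n) y := fun n => by
    have h₂ : (last p₀).1.length < max n ((last p₀).1.length + 1) := by omega
    refine ⟨_, cube_le (hS' _ _ ?_) (diag_tip hS (tip_ini hy h₂) (cube_ini hy h₂.le))⟩
    have := le_lcode_ini (g := g) y (max n ((last p₀).1.length + 1))
    omega
  obtain ⟨f, hf₀, hf⟩ := hc.dc (α := π)
    (S := fun p => (∃ n j, p = (F n).2 j) ∧ T p ∧ Cube (last p).1 (last p).2 y) (by fun_prop)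
    hch (fun p hp => by
      obtain ⟨⟨n, j, rfl⟩, h₂, h₃⟩ := hp
      obtain ⟨s, hs⟩ := h₁ (n + 1)
      obtain ⟨j', h₄, h₅, h₆⟩ := (hF n).2.2 j s y hs h₂ h₃
      exact ⟨_, ⟨⟨n + 1, j', rfl⟩, h₄, h₆⟩, h₅⟩)
    (a₀ := p₀) ⟨⟨0, 0, by rw [hF₀]⟩, h₀, cube_le hH hy⟩
  exact ⟨f, hf₀, fun n => ⟨(hf n).1.2, (hf n).2⟩⟩

/-- The condition that the `n`-th move of the game below `c` has to refine. -/
def bmPrev (c : g.Cn) (x : Fn g ℕ g.Cn) (n : ℕ) : g.Cn := if n = 0 then c else x (n - 1)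

/-- The `n`-th move is legal. -/
def BmOk (c : g.Cn) (x : Fn g ℕ g.Cn) (n : ℕ) : Prop :=
  CLe (x n) (bmPrev c x n) ∧ n < (x n).1.length

section

variable {Γ : Type*} [Cd g Γ] {c : Γ → g.Cn} {x : Γ → Fn g ℕ g.Cn} {n : Γ → ℕ}

@[fun_prop] theorem tm_bmPrev (h₁ : g.Tm c) (h₂ : g.Tm x) (h₃ : g.Tm n) :
    g.Tm fun a => bmPrev (c a) (x a) (n a) := by unfold bmPrev; fun_prop

@[fun_prop] theorem tm_BmOk (h₁ : g.Tm c) (h₂ : g.Tm x) (h₃ : g.Tm n) :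
    g.Tm fun a => BmOk (c a) (x a) (n a) := by unfold BmOk; fun_prop

end

section

variable {c : g.Cn} {x x' : Fn g ℕ g.Cn} {n : ℕ}

theorem bmPrev_succ : bmPrev c x (n + 1) = x n := rfl

theorem bmPrev_congr (h : ∀ k < n, x' k = x k) : bmPrev c x' n = bmPrev c x n := by
  cases n with
  | zero => rfl
  | succ n => exact h n (Nat.lt_succ_self n)

theorem BmOk.congr (h : BmOk c x n) (e : ∀ k ≤ n, x' k = x k) : BmOk c x' n := by
  unfold BmOk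
  rw [e n le_rfl, bmPrev_congr fun k hk => e k hk.le]
  exact h

theorem bmPrev_cle (hc : NE c) (h : ∀ k < n, BmOk c x k) : CLe (bmPrev c x n) c := by
  induction n with
  | zero => exact CLe.refl hc
  | succ n ih => exact (h n (Nat.lt_succ_self n)).1.trans (ih fun k hk => h k (by omega))

theorem bmPrev_cube (h : ∀ k < n, BmOk c x k) {y : g.Yy}
    (hy : Cube (bmPrev c x n).1 (bmPrev c x n).2 y) : ∀ k < n, Cube (x k).1 (x k).2 y := by
  induction n with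
  | zero => exact fun k hk => absurd hk (Nat.not_lt_zero k)
  | succ n ih =>
    intro k hk
    rcases Nat.lt_succ_iff_lt_or_eq.1 hk with hk | rfl
    · exact ih (fun k hk => h k (by omega)) ((h n (Nat.lt_succ_self n)).1.2.2 y hy) k hk
    · exact hy

end

/-- Any finitely many moves extend to a play that follows the strategy from then on. -/
theorem bm_play {α : Type v} [Cd g α] [Inhabited α] {σ : ℕ → Fn g ℕ α → α}
    (hσ : g.Tm fun z : ℕ × Fn g ℕ α => σ z.1 z.2) (hc : Causal σ) (x : Fn g ℕ α) (n : ℕ) :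
    ∃ x' : Fn g ℕ α, (∀ k < n, x' k = x k) ∧ ∀ k, n ≤ k → x' k = σ k x' := by
  have h := fix_eq (Ψ := fun k f => if k < n then x k else σ k f) (by fun_prop)
    fun k f f' e => by rw [hc k f f' e]
  exact ⟨_, fun k hk => (h k).trans (if_pos hk), fun k hk => (h k).trans (if_neg (not_lt.2 hk))⟩

/-- A strategy that plays legally and forces the limit into `Z` gives a cube inside `Z`. -/
theorem bm_cube (hc : g.TDC) {c : g.Cn} (hne : NE c) {σ : ℕ → Fn g ℕ g.Cn → g.Cn}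
    (hσ : g.Tm fun z : ℕ × Fn g ℕ g.Cn => σ z.1 z.2) (hcau : Causal σ) {i : ℕ} (hi : i < 2)
    {Z : g.Yy → Prop}
    (hA : ∀ x : Fn g ℕ g.Cn, (∀ n, n % 2 = i → x n = σ n x) → ∀ n, n % 2 = i →
      (∀ k < n, BmOk c x k) → BmOk c x n)
    (hB : ∀ x : Fn g ℕ g.Cn, (∀ n, n % 2 = i → x n = σ n x) → (∀ n, BmOk c x n) →
      ∀ y, (∀ n, Cube (x n).1 (x n).2 y) → Z y) :
    ∃ c', CLe c' c ∧ ∀ y, Cube c'.1 c'.2 y → Z y := by
  obtain ⟨x₀, -, hx₀⟩ := bm_play hσ hcau default 0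
  have hx₁ : ∀ n, n % 2 = i → x₀ n = σ n x₀ := fun n _ => hx₀ n (Nat.zero_le n)
  have hx₂ : ∀ k, k < 1 - i → BmOk c x₀ k := fun k hk =>
    hA x₀ hx₁ k (by omega) fun j hj => by omega
  obtain ⟨H, hH, h⟩ := bm_tree hc (π := ℕ × Fn g ℕ g.Cn) (last := fun p => bmPrev c p.2 p.1)
    (by fun_prop)
    (T := fun p => p.1 % 2 ≠ i ∧ (∀ n, n % 2 = i → p.2 n = σ n p.2) ∧ ∀ k, k < p.1 → BmOk c p.2 k)
    (by fun_prop) (ch := fun p p' => p'.1 = p.1 + 2 ∧ ∀ k, k < p.1 → p'.2 k = p.2 k) (by fun_prop)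
    (by
      rintro ⟨n, x⟩ ⟨h₁, h₂, h₃⟩ c' hc'
      dsimp only at h₁ h₂ h₃ hc'
      obtain ⟨y, hy⟩ := hc'.1
      have ha : CLe (ini y (max c'.1.length (n + 1)), c'.2) c' := cle_ini hy (le_max_left _ _)
      obtain ⟨x', e₁, e₂⟩ := bm_play hσ hcau
        ⟨fun k => if k < n then x k else (ini y (max c'.1.length (n + 1)), c'.2), by fun_prop⟩
        (n + 1)
      have e₃ : ∀ k < n, x' k = x k := fun k hk => (e₁ k (by omega)).trans (if_pos hk)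
      have e₄ : x' n = (ini y (max c'.1.length (n + 1)), c'.2) :=
        (e₁ n (by omega)).trans (if_neg (lt_irrefl n))
      have e₅ : ∀ k, k % 2 = i → x' k = σ k x' := fun k hk => by
        rcases lt_trichotomy k n with h | rfl | h
        · rw [e₃ k h, h₂ k hk]
          exact hcau k _ _ fun j hj => (e₃ j (hj.trans h)).symm
        · exact absurd hk h₁
        · exact e₂ k h
      have e₆ : ∀ k < n + 1, BmOk c x' k := fun k hk => by
        rcases Nat.lt_succ_iff_lt_or_eq.1 hk with hk | rfl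
        · exact (h₃ k hk).congr fun j hj => e₃ j (by omega)
        · refine ⟨?_, ?_⟩
          · rw [e₄, bmPrev_congr e₃]
            exact ha.trans hc'
          · rw [e₄, length_ini]
            omega
      have e₇ : BmOk c x' (n + 1) := hA x' e₅ _ (by omega) e₆
      refine ⟨(n + 2, x'), ⟨by dsimp only; omega, e₅, fun k hk => ?_⟩, ⟨rfl, e₃⟩, ?_⟩
      · rcases Nat.lt_succ_iff_lt_or_eq.1 hk with hk | rfl
        exacts [e₆ k hk, e₇]
      · have := e₇.1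
        rw [bmPrev_succ, e₄] at this
        exact this.trans ha)
    (p₀ := (1 - i, x₀)) ⟨by dsimp only; omega, hx₁, hx₂⟩
  have h₀ := bmPrev_cle hne hx₂
  refine ⟨((bmPrev c x₀ (1 - i)).1, H), (cle_of_rle h₀.1 hH).trans h₀, fun y hy => ?_⟩
  obtain ⟨f, -, hf⟩ := h y hy
  have h₁ : ∀ m, m ≤ (f m).1 := fun m => by
    induction m with
    | zero => omega
    | succ m ih => have := (hf m).2.1; omega
  have h₂ : ∀ m m', m ≤ m' → (f m).1 ≤ (f m').1 ∧ ∀ k < (f m).1, (f m').2 k = (f m).2 k := by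
    intro m m' hm
    induction m', hm using Nat.le_induction with
    | base => exact ⟨le_rfl, fun _ _ => rfl⟩
    | succ m' _ ih =>
      have := (hf m').2.1
      exact ⟨by omega, fun k hk => ((hf m').2.2 k (by omega)).trans (ih.2 k hk)⟩
  let x : Fn g ℕ g.Cn := ⟨fun k => (f (k + 1)).2 k, by fun_prop⟩
  have h₃ : ∀ n k, k ≤ n → x k = (f (n + 1)).2 k := fun n k hk =>
    ((h₂ (k + 1) (n + 1) (by omega)).2 k (h₁ _)).symm
  refine hB x (fun n hn => ?_) (fun n => ?_) y fun n => ?_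
  · exact ((hf (n + 1)).1.1.2.1 n hn).trans (hcau n _ _ fun k hk => (h₃ n k hk.le).symm)
  · exact ((hf (n + 1)).1.1.2.2 n (h₁ _)).congr (h₃ n)
  · exact bmPrev_cube (hf (n + 1)).1.1.2.2 (hf (n + 1)).1.2 n (h₁ _)

/-- The local Ramsey property. -/
theorem bm_ram (h : g.TDet g.Re) {X : g.Yy → Prop} (hX : g.Tm X) {c : g.Cn} (hne : NE c) :
    ∃ c', CLe c' c ∧ ((∀ y, Cube c'.1 c'.2 y → X y) ∨ ∀ y, Cube c'.1 c'.2 y → ¬ X y) := by
  obtain ⟨σ, hσ, hcau, hw⟩ := h.rl g.Cn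
    (fun x => (∃ m, m % 2 = 1 ∧ ¬ BmOk c x m ∧ ∀ k, k < m → BmOk c x k) ∨
      ((∀ n, BmOk c x n) ∧ ∀ y, (∀ n, Cube (x n).1 (x n).2 y) → X y)) (by fun_prop)
  rcases hw with hw | hw
  · obtain ⟨c', h₁, h₂⟩ := bm_cube h.tdc hne hσ hcau (i := 0) (by omega) (Z := X)
      (fun x hx n hn hk => by
        rcases hw x hx with ⟨m, h₁, h₂, h₃⟩ | h₁
        · rcases lt_trichotomy m n with h | rfl | h
          exacts [absurd (hk m h) h₂, by omega, h₃ n h]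
        · exact h₁.1 n)
      fun x hx hl => by
        rcases hw x hx with ⟨m, -, h₂, -⟩ | h₁
        exacts [absurd (hl m) h₂, h₁.2]
    exact ⟨c', h₁, Or.inl h₂⟩
  · obtain ⟨c', h₁, h₂⟩ := bm_cube h.tdc hne hσ hcau (i := 1) (by omega)
      (Z := fun y => ¬ X y)
      (fun x hx n hn hk => by_contra fun h₁ => hw x hx (Or.inl ⟨n, hn, h₁, hk⟩))
      fun x hx hl y hy hXy => hw x hx (Or.inr ⟨hl, fun y' hy' => by
        have : y' = y := Fn.ext' fun n =>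
          ini_eq_iff.1 ((hy' n).1.trans (hy n).1.symm) n (hl n).2
        rwa [this]⟩)
    exact ⟨c', h₁, Or.inr h₂⟩

theorem lu_of_tdet (h : g.TDet g.Re) : LU g := by
  intro ρ hρ c hne
  obtain ⟨c', h₁, h₂ | h₂⟩ := bm_ram h (X := fun y => ∃ r, ρ y r) (by fun_prop) hne
  · obtain ⟨F, hF, hF'⟩ := h.unif (ρ := fun (y : g.Yy) (r : g.Re) => Cube c'.1 c'.2 y → ρ y r)
      (by fun_prop) fun y => by
        by_cases hy : Cube c'.1 c'.2 y
        · obtain ⟨r, hr⟩ := h₂ y hy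
          exact ⟨r, fun _ => hr⟩
        · exact ⟨default, fun h' => absurd h' hy⟩
    exact ⟨c', h₁, Or.inr ⟨F, hF, hF'⟩⟩
  · exact ⟨c', h₁, Or.inl fun y hy r hr => h₂ y hy ⟨r, hr⟩⟩

end Mdl.Pw

end Pool.Agent.MP_09d684_lc
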