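import Pool.Agent.MP_09d684_lc.Tr.Force
import Pool.Agent.MP_09d684_lc.Tr.Defs

/-! Products of Fubini powers of `Fin` are projections of the countable power of `P(ω)/Fin`. -/

namespace Pool.Agent.MP_09d684_lc

open ZFSet

universe u v w

namespace Tr

open Mdl (Inf)

variable {T A B : Set (List ℕ)} {s : List ℕ} {R R' : ℕ × ℕ → Prop}

/-- The tree has no infinite branch. -/
abbrev Wf (T : Set (List ℕ)) : Prop := WellFounded fun s' s : List ℕ => s ∈ T ∧ ∃ n, s' = s ++ [n]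

theorem null_iff : Null T A s ↔
    (s ∉ T ∧ s ∉ A) ∨ (s ∈ T ∧ ∃ N, ∀ n, N ≤ n → Null T A (s ++ [n])) := by
  constructor
  · intro h
    cases h with
    | leaf h₁ h₂ => exact Or.inl ⟨h₁, h₂⟩
    | node N h₁ h₂ => exact Or.inr ⟨h₁, N, h₂⟩
  · rintro (⟨h₁, h₂⟩ | ⟨h₁, N, h₂⟩)
    exacts [.leaf h₁ h₂, .node N h₁ h₂]

theorem Null.mono (h : Null T B s) (h' : A ⊆ B) : Null T A s := by
  induction h with
  | leaf h₁ h₂ => exact .leaf h₁ fun e => h₂ (h' e)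
  | node N h₁ _ ih => exact .node N h₁ ih

theorem Null.union (h : Null T A s) (h' : Null T B s) : Null T (A ∪ B) s := by
  induction h with
  | leaf h₁ h₂ =>
    rcases null_iff.1 h' with h₃ | h₃
    exacts [.leaf h₁ fun e => e.elim h₂ h₃.2, absurd h₃.1 h₁]
  | node N h₁ _ ih =>
    rcases null_iff.1 h' with h₃ | ⟨-, N', h₃⟩
    · exact absurd h₁ h₃.1
    · exact .node (N + N') h₁ fun n hn => ih n (by omega) (h₃ n (by omega))

theorem Null.diff {C : Set (List ℕ)} (h : Null T (A \ B) s) (h' : Null T (B \ C) s) :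
    Null T (A \ C) s :=
  (h.union h').mono fun t ht => (em (t ∈ B)).elim (fun e => .inr ⟨e, ht.2⟩) fun e => .inl ⟨ht.1, e⟩

theorem null_of_disj (wf : Wf T) (s : List ℕ) (h : ∀ u, s ++ u ∉ A) : Null T A s := by
  induction s using wf.induction with
  | _ s ih =>
    by_cases hs : s ∈ T
    · exact .node 0 hs fun n _ => ih _ ⟨hs, n, rfl⟩ fun u => by simpa using h (n :: u)
    · exact .leaf hs (by simpa using h [])

/-- The nodes all of whose steps above the root are taken from `R`. -/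
def pr (R : ℕ × ℕ → Prop) : Set (List ℕ) :=
  {t | ∀ s n u, s ≠ [] → t = s ++ n :: u → R (code s, n)}

theorem root_pr (R : ℕ × ℕ → Prop) (n : ℕ) : [n] ∈ pr R := by
  intro s m u h e
  have := congrArg List.length e
  have := List.length_pos_iff.2 h
  simp at *
  omega

theorem step_pr {n : ℕ} (h : s ∈ pr R) (h' : R (code s, n)) : s ++ [n] ∈ pr R := by
  intro s' m u h₁ e
  induction u using List.reverseRecOn with
  | nil =>
    obtain ⟨rfl, e'⟩ := List.append_inj' e rfl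
    obtain rfl : n = m := by simpa using e'
    exact h'
  | append_singleton u k _ =>
    have e' : s ++ [n] = (s' ++ m :: u) ++ [k] := by simpa using e
    exact h s' m u h₁ (List.append_inj' e' rfl).1

theorem null_of_not (wf : Wf T) {n : ℕ} (hs : s ≠ []) (h : ¬ R (code s, n)) (hA : A ⊆ pr R) :
    Null T A (s ++ [n]) :=
  null_of_disj wf _ fun u e => h (hA e s n u hs (by simp))

theorem not_null_pr (hR : ∀ i, Inf fun j => R (i, j)) (h : s ∈ pr R) : ¬ Null T (pr R) s := by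
  intro h'
  induction h' with
  | leaf _ h₂ => exact h₂ h
  | @node s N _ _ ih =>
    obtain ⟨n, h₁, h₂⟩ := hR (code s) N
    exact ih n h₁ (step_pr h h₂)

theorem null_pr_diff (wf : Wf T) (h : ∀ i, ¬ Inf fun j => R' (i, j) ∧ ¬ R (i, j)) (s : List ℕ)
    (hs : s ≠ []) (h' : s ∈ pr R) : Null T (pr R' \ pr R) s := by
  induction s using wf.induction with
  | _ s ih =>
    by_cases hT : s ∈ T
    · have h₁ := h (code s)
      unfold Mdl.Inf at h₁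
      push Not at h₁
      obtain ⟨N, hN⟩ := h₁
      refine .node N hT fun n hn => ?_
      by_cases h₂ : R (code s, n)
      · exact ih _ ⟨hT, n, rfl⟩ (by simp) (step_pr h' h₂)
      · exact null_of_not wf hs (fun e => h₂ (hN n hn e)) fun _ e => e.1
    · exact .leaf hT fun e => e.2 h'

theorem code_inj {s s' : List ℕ} (g : Mdl.{u}) (h : code s = code s') : s = s' :=
  Mdl.lcode_inj (g := g) h

/-- The refinement of `R` that projects into `B`. -/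
def cut (T B : Set (List ℕ)) (R : ℕ × ℕ → Prop) (p : ℕ × ℕ) : Prop :=
  R p ∧ ∀ s, code s = p.1 → s ≠ [] → s ∈ T → ¬ Null T (B ∩ pr R) s →
    ¬ Null T (B ∩ pr R) (s ++ [p.2])

theorem inf_cut (g : Mdl.{u}) (wf : Wf T) (hR : ∀ i, Inf fun j => R (i, j)) (i : ℕ) :
    Inf fun j => cut T B R (i, j) := by
  by_cases h : ∃ s, code s = i ∧ s ≠ [] ∧ s ∈ T ∧ ¬ Null T (B ∩ pr R) s
  · obtain ⟨s, rfl, h₁, h₂, h₃⟩ := h
    intro N
    by_contra hn
    refine h₃ (.node N h₂ fun n h₄ => by_contra fun h₅ => hn ⟨n, h₄, ?_, fun s' e _ _ _ => ?_⟩)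
    · exact by_contra fun h₆ => h₅ (null_of_not wf h₁ h₆ fun _ e => e.2)
    · rw [code_inj g e]
      exact h₅
  · exact (hR i).imp fun m hm => ⟨hm, fun s e h₁ h₂ h₃ => absurd ⟨s, e, h₁, h₂, h₃⟩ h⟩

theorem null_cut (wf : Wf T) (s : List ℕ) (hs : s ≠ []) (h : ¬ Null T (B ∩ pr R) s) :
    Null T (pr (cut T B R) \ B) s := by
  induction s using wf.induction with
  | _ s ih =>
    by_cases hT : s ∈ T
    · refine .node 0 hT fun n _ => ?_
      by_cases h₂ : Null T (B ∩ pr R) (s ++ [n])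
      · exact null_of_not (R := cut T B R) wf hs (fun e => e.2 s rfl hs hT h h₂) fun _ e => e.1
      · exact ih _ ⟨hT, n, rfl⟩ (by simp) h₂
    · exact .leaf hT fun e => h (.leaf hT fun e' => e.2 e'.1)

theorem null_cut' (wf : Wf T) {n : ℕ} (h : ¬ Null T B [n]) (h' : Null T (B \ pr R) [n]) :
    Null T (pr (cut T B R) \ B) [n] :=
  null_cut wf _ (by simp) fun e => h ((e.union h').mono fun t ht =>
    (em (t ∈ pr R)).elim (fun e => .inl ⟨ht, e⟩) fun e => .inr ⟨ht, e⟩)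

end Tr

namespace Mdl.Pw

open Cd Tr

variable {g : Mdl.{u}} {G : Set ZFSet.{u}}

/-- Sets of nodes. -/
abbrev Nd (g : Mdl.{u}) := Fn g (List ℕ) Prop

@[fun_prop] theorem tm_code {Γ : Type*} [Cd g Γ] {s : Γ → List ℕ} (h : g.Tm s) :
    g.Tm fun x => code (s x) := tm_lcode h

theorem tm_null (T : Nd g) (wf : Wf {s | T s}) :
    g.Tm fun z : Nd g × List ℕ => Null {s | T s} {s | z.1 s} z.2 := by
  have wf' : WellFounded fun s' s : List ℕ => T s ∧ ∃ n, s' = s ++ [n] := wf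
  have hF : g.Tm fun A : Nd g => g.rfix (fun s' s : List ℕ => T s ∧ ∃ n, s' = s ++ [n])
      fun s (f : Nd g) => (¬ T s ∧ ¬ A s) ∨ (T s ∧ ∃ N, ∀ n, N ≤ n → f (s ++ [n])) :=
    tm_rfix (fun _ => wf') (by fun_prop) (by fun_prop)
  refine Tm.congr_iff (tm_ap (hF.comp Tm.fst') Tm.snd') fun z => ?_
  obtain ⟨A, s⟩ := z
  dsimp only
  induction s using wf'.induction with
  | _ s ih =>
    rw [null_iff, rfix_eq (g := g) (Ψ := fun s (f : Nd g) =>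
      (¬ T s ∧ ¬ A s) ∨ (T s ∧ ∃ N, ∀ n, N ≤ n → f (s ++ [n]))) wf' (by fun_prop) (by fun_prop)
      fun a f h e => propext
      (or_congr Iff.rfl (and_congr_right fun ha => exists_congr fun N => forall_congr' fun n =>
        by rw [e _ ⟨ha, n, rfl⟩]))]
    exact or_congr Iff.rfl (and_congr_right fun ha => exists_congr fun N => forall_congr' fun n =>
      by rw [ih _ ⟨ha, n, rfl⟩])

/-- The nodes with code in `p`. -/
def nd (p : g.U) : Nd g := ⟨fun s => E (ι (code s)) p, by fun_prop⟩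

@[fun_prop] theorem tm_nd {Γ : Type*} [Cd g Γ] {p : Γ → g.U} (h : g.Tm p) :
    g.Tm fun x => nd (p x) := by unfold nd; fun_prop

/-- The projection. -/
noncomputable def pj (S : g.Rs) : g.U :=
  img (fun t : List ℕ => ∀ s n u, s ≠ [] → t = s ++ n :: u → S (code s, n)) fun t => ι (code t)

@[fun_prop] theorem tm_pj {Γ : Type*} [Cd g Γ] {S : Γ → g.Rs} (h : g.Tm S) :
    g.Tm fun x => pj (S x) := by unfold pj; fun_prop

theorem E_pj {S : g.Rs} {x : g.U} : E x (pj S) ↔ ∃ t, t ∈ Tr.pr S ∧ ι (code t) = x :=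
  E_img (by fun_prop) (by fun_prop)

theorem nodes_pj (S : g.Rs) : nodes (pj S).1 = Tr.pr S := by
  ext t
  refine (E_pj (x := ι (code t))).trans ⟨?_, fun h => ⟨t, h, rfl⟩⟩
  rintro ⟨t', h, e⟩
  rwa [← code_inj g (inj e)]

theorem cond_pj {T : Set (List ℕ)} {S : g.Rs} (h : Pos S) : (pj S).1 ∈ Tr.Cond g.M T := by
  refine ⟨(pj S).2, fun x hx => ?_, fun n => ?_⟩
  · obtain ⟨t, -, e⟩ := (E_pj (x := ⟨x, g.zf.trans _ (pj S).2 _ hx⟩)).1 hx
    exact mem_omega.2 ⟨_, congrArg U.val e⟩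
  · rw [nodes_pj]
    exact not_null_pr h (root_pr _ n)

theorem exists_pj (T : g.U) (wf : Wf (nodes T.1)) (hG : Tr.Generic g.M (nodes T.1) G) :
    Nonempty (PJ g G) := by
  have hN := tm_null (nd T) wf
  have tmL : g.Tm fun z : g.U × g.U => Tr.Le (nodes T.1) z.1.1 z.2.1 := by
    have : g.Tm fun z : (g.U × g.U) × ℕ => Null (nodes T.1) (nodes z.1.1.1 \ nodes z.1.2.1) [z.2] :=
      hN.comp (f := fun z : (g.U × g.U) × ℕ =>
        ((⟨fun s => nd z.1.1 s ∧ ¬ nd z.1.2 s, by fun_prop⟩ : Nd g), [z.2])) (by fun_prop)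
    exact tm_all this
  have tmC : g.Tm fun p : g.U => p.1 ∈ Tr.Cond g.M (nodes T.1) := by
    have h₁ : g.Tm fun z : g.U × ℕ => Null (nodes T.1) (nodes z.1.1) [z.2] :=
      hN.comp (f := fun z : g.U × ℕ => (nd z.1, [z.2])) (by fun_prop)
    have h₂ : g.Tm fun p : g.U => (∀ x, E x p → E x g.om) ∧
        ∀ n, ¬ Null (nodes T.1) (nodes p.1) [n] := tm_and (by fun_prop) (tm_all (tm_not h₁))
    exact h₂.congr_iff fun p => ⟨fun h => ⟨p.2, fun x hx => h.1 ⟨x, g.zf.trans _ p.2 _ hx⟩ hx, h.2⟩,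
      fun h => ⟨fun x hx => h.2.1 hx, h.2.2⟩⟩
  have tr : ∀ {a b c : ZFSet.{u}}, Tr.Le (nodes T.1) a b → Tr.Le (nodes T.1) b c →
      Tr.Le (nodes T.1) a c := fun h h' n => (h n).diff (h' n)
  have key : ∀ (S : g.Rs) (p : g.U), Pos S → p.1 ∈ Tr.Cond g.M (nodes T.1) →
      Tr.Le (nodes T.1) p.1 (pj S).1 →
      ∃ S', Pos S' ∧ SLe S' S ∧ Tr.Le (nodes T.1) (pj S').1 p.1 := fun S p h₁ h₂ h₃ => by
    have h₄ : g.Tm fun s : List ℕ => Null (nodes T.1) (nodes p.1 ∩ Tr.pr S) s := by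
      rw [← nodes_pj]
      exact hN.comp (f := fun s : List ℕ =>
        ((⟨fun t => nd p t ∧ nd (pj S) t, by fun_prop⟩ : Nd g), s)) (by fun_prop)
    have h₅ : g.Tm fun s : List ℕ => s ∈ nodes T.1 := (nd T).tm
    have h₆ : g.Tm (cut (nodes T.1) (nodes p.1) S) := by
      unfold cut
      fun_prop
    refine ⟨⟨_, h₆⟩, inf_cut g wf h₁, sle_of_forall fun _ h => h.1, fun n => ?_⟩
    rw [nodes_pj]
    exact null_cut' wf (h₂.2.2 n) (nodes_pj S ▸ h₃ n)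
  have onto : ∀ p ∈ Tr.Cond g.M (nodes T.1), ∃ S : g.Rs, Pos S ∧ Tr.Le (nodes T.1) (pj S).1 p :=
    fun p hp => by
      obtain ⟨S, h₁, -, h₂⟩ := key ⟨fun _ => True, by fun_prop⟩ ⟨p, hp.1⟩
        (fun _ n => ⟨n, le_rfl, trivial⟩) hp fun n => null_of_disj wf _ fun u e =>
          e.2 (by rw [nodes_pj]; exact fun _ _ _ _ _ => trivial)
      exact ⟨S, h₁, h₂⟩
  have dense : ∀ D : g.Rs → Prop, g.Tm D → (∀ S, Pos S → ∃ S', Pos S' ∧
      Tr.Le (nodes T.1) (pj S').1 (pj S).1 ∧ D S') → ∃ S, (Pos S ∧ (pj S).1 ∈ G) ∧ D S :=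
    fun D hD hd => by
      have e : ∀ x : g.U, E x (img (fun S : g.Rs => Pos S ∧ D S) pj) ↔
          ∃ S : g.Rs, (Pos S ∧ D S) ∧ pj S = x := fun x => E_img (by fun_prop) (by fun_prop)
      obtain ⟨p, hp, h⟩ := hG.meets _ (img (fun S : g.Rs => Pos S ∧ D S) pj).2 fun p hp => by
        obtain ⟨S, hS, h₀⟩ := onto p hp
        obtain ⟨S', h₁, h₂, h₃⟩ := hd S hS
        exact ⟨(pj S').1, (e _).2 ⟨S', ⟨h₁, h₃⟩, rfl⟩, cond_pj h₁, tr h₂ h₀⟩
      obtain ⟨S, h₁, h₂⟩ := (e ⟨p, g.zf.trans _ (img (fun S : g.Rs => Pos S ∧ D S) pj).2 _ h⟩).1 h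
      exact ⟨S, ⟨h₁.1, by rw [h₂]; exact hp⟩, h₁.2⟩
  have rf : ∀ a : ZFSet.{u}, Tr.Le (nodes T.1) a a := fun a n =>
    null_of_disj wf _ fun u e => e.2 e.1
  have below : ∀ r ∈ G, ∃ S : g.Rs, (Pos S ∧ (pj S).1 ∈ G) ∧ Tr.Le (nodes T.1) (pj S).1 r :=
    fun r hr => by
      have h₁ : g.Tm fun S : g.Rs => Tr.Le (nodes T.1) (pj S).1 r :=
        tmL.comp (f := fun S : g.Rs => (pj S, (⟨r, (hG.sub hr).1⟩ : g.U))) (by fun_prop)
      have h₂ : g.Tm fun z : g.Rs × g.Rs => Tr.Le (nodes T.1) (pj z.2).1 (pj z.1).1 :=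
        tmL.comp (f := fun z : g.Rs × g.Rs => (pj z.2, pj z.1)) (by fun_prop)
      obtain ⟨S, hS, h | h⟩ := dense (fun S => Tr.Le (nodes T.1) (pj S).1 r ∨
          ∀ S' : g.Rs, Pos S' → Tr.Le (nodes T.1) (pj S').1 (pj S).1 →
            ¬ Tr.Le (nodes T.1) (pj S').1 r)
        (tm_or h₁ (tm_all (tm_imp (by fun_prop) (tm_imp h₂ (tm_not (h₁.comp Tm.snd'))))))
        fun S hS => by
          by_cases h : ∃ S' : g.Rs, Pos S' ∧ Tr.Le (nodes T.1) (pj S').1 (pj S).1 ∧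
              Tr.Le (nodes T.1) (pj S').1 r
          · obtain ⟨S', h₁, h₂, h₃⟩ := h
            exact ⟨S', h₁, h₂, Or.inl h₃⟩
          · exact ⟨S, hS, rf _, Or.inr fun S' h₁ h₂ h₃ => h ⟨S', h₁, h₂, h₃⟩⟩
      · exact ⟨S, hS, h⟩
      · obtain ⟨q, hq, h₃, h₄⟩ := hG.dir _ hS.2 _ hr
        obtain ⟨S', h₅, h₆⟩ := onto q (hG.sub hq)
        exact absurd (tr h₆ h₄) (h S' h₅ (tr h₆ h₃))
  refine ⟨{
    le := fun S S' => Tr.Le (nodes T.1) (pj S).1 (pj S').1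
    bl := fun S p => p.1 ∈ Tr.Cond g.M (nodes T.1) ∧ Tr.Le (nodes T.1) (pj S).1 p.1
    gg := fun S => (pj S).1 ∈ G
    tm_le := tmL.comp (f := fun z : g.Rs × g.Rs => (pj z.1, pj z.2)) (by fun_prop)
    tm_bl := tm_and (tmC.comp Tm.snd')
      (tmL.comp (f := fun z : g.Rs × g.U => (pj z.1, z.2)) (by fun_prop))
    trans := fun _ _ _ => tr
    of_sle := fun a b h n => by
      rw [nodes_pj, nodes_pj]
      exact null_pr_diff wf h _ (by simp) (root_pr _ n)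
    proj := fun S S' h₁ h₂ h₃ => key S (pj S') h₁ (cond_pj h₂) h₃
    dense := dense
    dir := fun S S' h h' => by
      obtain ⟨r, hr, h₁, h₂⟩ := hG.dir _ h.2 _ h'.2
      obtain ⟨S'', h₃, h₄⟩ := below r hr
      exact ⟨S'', h₃, tr h₄ h₁, tr h₄ h₂⟩
    bl_mono := fun _ _ _ h h' => ⟨h.1, tr h' h.2⟩
    mem := fun p => ⟨fun h => (below _ h).imp fun _ h' => ⟨h'.1, hG.sub h, h'.2⟩,
      fun ⟨_, h₁, h₂⟩ => hG.up _ h₁.2 _ h₂.1 h₂.2⟩
    ne := hG.ne.elim fun p hp => ⟨⟨p, (hG.sub hp).1⟩, hp⟩ }⟩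

/-- The strong partition property passes to the intermediate models. -/
theorem preserve_mid (P : PJ g G) (hD : ADR g.M ∨ (ADplus g.M ∧ VeqL g.M)) (κ : ZFSet.{u})
    (hκ : StrongPartition g.M κ) (N : Set ZFSet.{u}) (h₁ : g.M ⊆ N) (h₂ : N ⊆ Ext g.M G) :
    StrongPartition N κ := by
  have h := preserve_all P hD κ hκ
  obtain ⟨k, rfl⟩ : ∃ k : g.U, k.1 = κ := ⟨⟨κ, hκ.mem⟩, rfl⟩
  have : Fact (IsOrdinal k.1) := ⟨hκ.ord⟩
  have : Inhabited (Elt k) := ⟨⟨g.om, hκ.unc⟩⟩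
  obtain ⟨hc, hu⟩ : g.TDC ∧ LU g := by
    rcases hD with h | ⟨h, -⟩
    · exact ⟨(tdet_re_of_adr (g := g) h).tdc, lu_of_tdet (tdet_re_of_adr (g := g) h)⟩
    · exact ⟨tdc_of_adplus h, lu_of_tib (tdet_nat_of_ad (g := g) h.ad) (tdc_of_adplus h)
        (tib_of_adplus h) (tsp_of_sp (k := k) hκ).unc⟩
  have elt : ∀ a ∈ k.1, ∃ i : Elt k, i.1.1 = a := fun a ha =>
    ⟨⟨⟨a, g.zf.trans _ k.2 _ ha⟩, ha⟩, rfl⟩
  have sub : ∀ x ∈ Ext g.M G, x ⊆ k.1 → x ∈ N := fun x hx h' =>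
    h₁ (barren hc hu P (Elt k) hx fun z hz => elt z (h' hz))
  have otp : ∀ x, x ⊆ k.1 → HasOtp (Ext g.M G) x k.1 → HasOtp N x k.1 := fun x hx ⟨f, hf, h⟩ =>
    ⟨f, h₁ (barren hc hu P (Elt k × Elt k) hf fun z hz => by
      obtain ⟨a, ha, b, hb, rfl⟩ := h.1.1 z hz
      obtain ⟨i, rfl⟩ := elt a ha
      obtain ⟨j, rfl⟩ := elt b (hx hb)
      exact ⟨(i, j), rfl⟩), h⟩
  refine ⟨h₁ hκ.mem, hκ.ord, hκ.unc, fun a ha ⟨f, hf, e⟩ => h.card a ha ⟨f, h₂ hf, e⟩,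
    fun m hm h₃ c hc' hfn => ?_⟩
  have e : {x | x ∈ N ∧ x ⊆ k.1 ∧ HasOtp N x k.1} =
      {x | x ∈ Ext g.M G ∧ x ⊆ k.1 ∧ HasOtp (Ext g.M G) x k.1} := Set.ext fun x =>
    ⟨fun ⟨a, b, f, hf, d⟩ => ⟨h₂ a, b, f, h₂ hf, d⟩, fun ⟨a, b, d⟩ => ⟨sub x a b, b, otp x b d⟩⟩
  obtain ⟨K, k₁, k₂, k₃, i, k₄⟩ := h.part m hm h₃ c (h₂ hc') (e ▸ hfn)
  exact ⟨K, sub K k₁ k₂, k₂, otp K k₂ k₃, i, fun x hx hK ⟨f, hf, d⟩ =>
    k₄ x (h₂ hx) hK ⟨f, h₂ hf, d⟩⟩

end Mdl.Pw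

end Pool.Agent.MP_09d684_lc
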