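import Pool.Agent.Mg.F09d684a.Ge05232

/-! The space of sequences for the countable power of `P(ω)/Fin`: the `n`-th point lies in
column `lab n`. -/

namespace Pool.Agent.MP_09d684_lc

open ZFSet

universe u v w

namespace Mdl.Pw

variable {g : Mdl.{u}}

open Cd

def Ok (y : g.Yy) (n : ℕ) (p : Pt) : Prop :=
  p.1 ≤ p.2 ∧ (∀ k, k < n → (y k).2 < p.2) ∧ p.1 = lab n

def Val (y : g.Yy) : Prop := ∀ n, Ok y n (y n)

def Cube (u : St) (R : g.Rs) (y : g.Yy) : Prop :=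
  ini y u.length = u ∧ Val y ∧ ∀ n, u.length ≤ n → Mem R (y n).1 (y n).2

def NE (c : g.Cn) : Prop := ∃ y, Cube c.1 c.2 y

def CLe (c' c : g.Cn) : Prop :=
  NE c' ∧ c.1.length ≤ c'.1.length ∧ ∀ y, Cube c'.1 c'.2 y → Cube c.1 c.2 y

def Dns (D : g.Cn → Prop) : Prop := ∀ c, NE c → ∃ c', CLe c' c ∧ D c'

def Opn (D : g.Cn → Prop) : Prop := ∀ c c', D c → CLe c' c → D c'

def Below (u : St) (y' y : g.Yy) : Prop := ini y' u.length = u ∧ Val y' ∧ Sub y' y

def Good (D : g.Cn → Prop) (u : St) (R : g.Rs) : Prop :=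
  ∀ y, Cube u R y → ∃ c, D c ∧ Cube c.1 c.2 y

/-- All columns are infinite. -/
def Pos (S : g.Rs) : Prop := ∀ i, Inf fun j => S (i, j)

/-- Almost inclusion in every column. -/
def SLe (S S' : g.Rs) : Prop := ∀ i, ¬ Inf fun j => S (i, j) ∧ ¬ S' (i, j)

section

variable {Γ : Type*} [Cd g Γ] {R R' : Γ → g.Rs} {y y' : Γ → g.Yy} {i n : Γ → ℕ} {p : Γ → Pt}
  {s : Γ → St} {c c' : Γ → g.Cn}

@[fun_prop] theorem tm_Ok (h₁ : g.Tm y) (h₂ : g.Tm n) (h₃ : g.Tm p) :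
    g.Tm fun x => Ok (y x) (n x) (p x) := by unfold Ok; fun_prop

@[fun_prop] theorem tm_Val (h : g.Tm y) : g.Tm fun x => Val (y x) := by unfold Val; fun_prop

@[fun_prop] theorem tm_Cube (h₁ : g.Tm s) (h₂ : g.Tm R) (h₃ : g.Tm y) :
    g.Tm fun x => Cube (s x) (R x) (y x) := by unfold Cube; fun_prop

@[fun_prop] theorem tm_NE (h : g.Tm c) : g.Tm fun x => NE (c x) := by unfold NE; fun_prop

@[fun_prop] theorem tm_CLe (h₁ : g.Tm c') (h₂ : g.Tm c) : g.Tm fun x => CLe (c' x) (c x) := by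
  unfold CLe; fun_prop

@[fun_prop] theorem tm_Below (h₀ : g.Tm s) (h₁ : g.Tm y') (h₂ : g.Tm y) :
    g.Tm fun x => Below (s x) (y' x) (y x) := by unfold Below; fun_prop

@[fun_prop] theorem tm_Good {D : Γ → g.Cn → Prop} (h₀ : g.Tm fun z : Γ × g.Cn => D z.1 z.2)
    (h₁ : g.Tm s) (h₂ : g.Tm R) : g.Tm fun x => Good (D x) (s x) (R x) := by
  unfold Good; fun_prop

@[fun_prop] theorem tm_Pos (h : g.Tm R) : g.Tm fun x => Pos (R x) := by unfold Pos; fun_prop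

@[fun_prop] theorem tm_SLe (h₁ : g.Tm R) (h₂ : g.Tm R') : g.Tm fun x => SLe (R x) (R' x) := by
  unfold SLe; fun_prop

end

/-- The reservoir given by `y`. -/
def res (y : g.Yy) : g.Rs := ⟨fun p => ∃ n, y n = p, by fun_prop⟩

/-- A common refinement of two reservoirs, always below the first. -/
def meet (R R' : g.Rs) : g.Rs :=
  ⟨fun p => Mem R p.1 p.2 ∧ ((Inf fun k => Mem R p.1 k ∧ Mem R' p.1 k) → Mem R' p.1 p.2),
    by fun_prop⟩

section

variable {Γ : Type*} [Cd g Γ] {R R' : Γ → g.Rs} {y : Γ → g.Yy}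

@[fun_prop] theorem tm_res (h : g.Tm y) : g.Tm fun x => res (y x) := by unfold res; fun_prop

@[fun_prop] theorem tm_meet (h₁ : g.Tm R) (h₂ : g.Tm R') : g.Tm fun x => meet (R x) (R' x) := by
  unfold meet; fun_prop

end

/-- Local uniformization (it contains the local Ramsey property). -/
def LU (g : Mdl.{u}) : Prop :=
  ∀ ρ : g.Yy → g.Re → Prop, g.Tm (fun z : g.Yy × g.Re => ρ z.1 z.2) → ∀ c : g.Cn, NE c →
    ∃ c', CLe c' c ∧ ((∀ y, Cube c'.1 c'.2 y → ∀ r, ¬ ρ y r) ∨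
      ∃ F : g.Yy → g.Re, g.Tm F ∧ ∀ y, Cube c'.1 c'.2 y → ρ y (F y))

variable {R R' R'' H : g.Rs} {y y' y'' : g.Yy} {s t : St} {c c' c'' : g.Cn} {n k : ℕ}

theorem Val.strictMono (h : Val y) : StrictMono fun n => (y n).2 := fun a b e => (h b).2.1 a e

theorem Val.le_height (h : Val y) (n : ℕ) : n ≤ (y n).2 := h.strictMono.le_apply

theorem Val.col (h : Val y) (n : ℕ) : (y n).1 = lab n := (h n).2.2

theorem ok_congr {p : Pt} (e : ∀ k < n, y k = y' k) : Ok y n p ↔ Ok y' n p := by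
  unfold Ok
  refine and_congr Iff.rfl (and_congr ?_ Iff.rfl)
  exact forall_congr' fun k => forall_congr' fun hk => by rw [e k hk]

theorem cube_ini (h : Cube s R y) (hn : s.length ≤ n) : Cube (ini y n) R y :=
  ⟨by rw [length_ini], h.2.1, fun m hm => h.2.2 m (hn.trans (by simpa using hm))⟩

theorem cube_of_ini (h : Cube s R y) (hn : s.length ≤ n) (h' : Cube (ini y n) R y') :
    Cube s R y' := by
  obtain ⟨h₁, h₂, h₃⟩ := h'
  rw [length_ini] at h₁ h₃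
  have e := ini_eq_iff.1 h₁
  refine ⟨(ini_eq_iff.2 fun k hk => e k (by omega)).trans h.1, h₂, fun m hm => ?_⟩
  by_cases hm' : m < n
  · rw [e m hm']
    exact h.2.2 m hm
  · exact h₃ m (not_lt.1 hm')

theorem cube_le (h : RLe R' R) (h' : Cube s R' y) : Cube s R y :=
  ⟨h'.1, h'.2.1, fun n hn => h _ _ (h'.2.2 n hn)⟩

/-- The leftmost element of a cube. -/
noncomputable def lm (s : St) (R : g.Rs) : g.Yy :=
  g.fix fun n f => if n < s.length then s.getD n default else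
    g.least fun p => Ok f n p ∧ Mem R p.1 p.2

@[fun_prop] theorem tm_lm {Γ : Type*} [Cd g Γ] {s : Γ → St} {R : Γ → g.Rs} (h₁ : g.Tm s)
    (h₂ : g.Tm R) : g.Tm fun x => lm (s x) (R x) := by
  unfold lm
  fun_prop

theorem lm_eq (s : St) (R : g.Rs) (n : ℕ) : lm s R n = if n < s.length then s.getD n default else
    g.least fun p => Ok (lm s R) n p ∧ Mem R p.1 p.2 := by
  refine fix_eq (by fun_prop) (fun n f h e => ?_) n
  simp only [ok_congr e]

theorem exists_ok (y : g.Yy) (n : ℕ) (R : g.Rs) : ∃ p, Ok y n p ∧ Mem R p.1 p.2 := by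
  obtain ⟨B, hB⟩ := exists_bound y n
  obtain ⟨m, h₃, h₄⟩ := inf_mem R (lab n) (max B (lab n))
  exact ⟨(lab n, m), ⟨(le_max_right _ _).trans h₃,
    fun k hk => (hB k hk).trans_le ((le_max_left _ _).trans h₃), rfl⟩, h₄⟩

theorem lm_cube_aux (h : ∀ k < s.length, Ok y k (y k)) (e : ini y s.length = s) (R : g.Rs) :
    Cube s R (lm s R) := by
  have h₁ : ∀ k < s.length, lm s R k = y k := fun k hk => by
    rw [lm_eq, if_pos hk]
    conv_lhs => rw [← e]
    exact getD_ini _ _ hk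
  have h₂ : ∀ n, Ok (lm s R) n (lm s R n) ∧
      (s.length ≤ n → Mem R (lm s R n).1 (lm s R n).2) := by
    intro n
    by_cases hn : n < s.length
    · refine ⟨?_, fun h' => absurd hn (not_lt.2 h')⟩
      rw [h₁ n hn, ok_congr fun k hk => h₁ k (hk.trans hn)]
      exact h n hn
    · have := least_spec (g := g) (exists_ok (lm s R) n R)
      rw [← (lm_eq s R n).trans (if_neg hn)] at this
      exact ⟨this.1, fun _ => this.2⟩
  exact ⟨(ini_eq_iff.2 h₁).trans e, fun n => (h₂ n).1, fun n => (h₂ n).2⟩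

theorem lm_cube (h : Val y) (n : ℕ) (R : g.Rs) : Cube (ini y n) R (lm (ini y n) R) :=
  lm_cube_aux (fun k _ => h k) (by rw [length_ini]) R

theorem lm_nil (R : g.Rs) : Cube [] R (lm [] R) :=
  lm_cube_aux (y := default) (fun _ h => absurd h (Nat.not_lt_zero _)) rfl R

theorem NE.lm (h : NE (s, R)) (R' : g.Rs) : Cube s R' (lm s R') :=
  h.elim fun _ hy => lm_cube_aux (fun k _ => hy.2.1 k) hy.1 R'

theorem CLe.refl (h : NE c) : CLe c c := ⟨h, le_rfl, fun _ h => h⟩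

theorem CLe.trans (h : CLe c'' c') (h' : CLe c' c) : CLe c'' c :=
  ⟨h.1, h'.2.1.trans h.2.1, fun y hy => h'.2.2 y (h.2.2 y hy)⟩

theorem cle_ini (h : Cube s R y) (hn : s.length ≤ n) : CLe (ini y n, R) (s, R) :=
  ⟨⟨y, cube_ini h hn⟩, by simpa using hn, fun _ h' => cube_of_ini h hn h'⟩

theorem cle_of_rle (h : NE (s, R)) (h' : RLe R' R) : CLe (s, R') (s, R) :=
  ⟨⟨_, h.lm R'⟩, le_rfl, fun _ hy => cube_le h' hy⟩

theorem mem_meet {i m : ℕ} : Mem (meet R R') i m ↔ meet R R' (i, m) :=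
  mem_iff_of_inf ((inf_mem R i).shr fun k => Mem R' i k)

theorem meet_le (R R' : g.Rs) : RLe (meet R R') R := fun _ _ h => (mem_meet.1 h).1

theorem meet_cube (h : Cube s R y) (h' : Cube s R' y) :
    Cube s (meet R R') y ∧ ∀ y', Cube s (meet R R') y' → Cube s R' y' := by
  have hc : ∀ i, Inf fun m => Mem R i m ∧ Mem R' i m := fun i N => by
    obtain ⟨j, h₁, h₂⟩ := exists_lab i (max N s.length)
    rw [← h₂, ← h.2.1.col]
    exact ⟨(y j).2, ((le_max_left _ _).trans h₁).trans (h.2.1.le_height j),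
      h.2.2 j ((le_max_right _ _).trans h₁), h'.2.2 j ((le_max_right _ _).trans h₁)⟩
  exact ⟨⟨h.1, h.2.1, fun n hn => Or.inl ⟨h.2.2 n hn, fun _ => h'.2.2 n hn⟩⟩,
    fun y' hy => ⟨hy.1, hy.2.1, fun n hn => (mem_meet.1 (hy.2.2 n hn)).2 (hc _)⟩⟩

theorem cle_meet (h : Cube c.1 c.2 y) (h' : Cube c'.1 c'.2 y) (hn : c.1.length ≤ n)
    (hn' : c'.1.length ≤ n) : Cube (ini y n) (meet c.2 c'.2) y ∧
      CLe (ini y n, meet c.2 c'.2) c ∧ CLe (ini y n, meet c.2 c'.2) c' := by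
  obtain ⟨h₁, h₂⟩ := meet_cube (cube_ini h hn) (cube_ini h' hn')
  exact ⟨h₁, ⟨⟨y, h₁⟩, by simpa using hn,
    fun y' hy => cube_of_ini h hn (cube_le (meet_le _ _) hy)⟩,
    ⟨⟨y, h₁⟩, by simpa using hn', fun y' hy => cube_of_ini h' hn' (h₂ y' hy)⟩⟩

theorem pos_rng (h : Val y) : Pos (rng y) := fun i N => by
  obtain ⟨j, h₁, h₂⟩ := exists_lab i N
  exact ⟨(y j).2, h₁.trans (h.le_height j), j, by rw [← h₂, ← h.col]⟩

theorem mem_res (hy : Val y) {i m : ℕ} : Mem (res y) i m ↔ ∃ j, y j = (i, m) :=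
  mem_iff_of_inf (R := res y) (pos_rng hy i)

theorem cube_res (hy : Val y) (hs : ∀ p ∈ s, ∃ m, p = y m) (h : Cube s (res y) y') :
    Sub y' y := by
  intro n
  by_cases hn : n < s.length
  · exact hs _ (h.1 ▸ mem_ini.2 ⟨n, hn, rfl⟩)
  obtain ⟨j, hj⟩ := (mem_res hy).1 (h.2.2 n (not_lt.1 hn))
  exact ⟨j, hj.symm⟩

theorem res_cube (hy' : Val y') (e : ini y' s.length = s)
    (h : ∀ n, s.length ≤ n → ∃ m, y' n = y m) : Cube s (res y) y' :=
  ⟨e, hy', fun n hn => (h n hn).elim fun m hm => Or.inl ⟨m, hm.symm⟩⟩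

theorem below_iff (hy : Val y) (e : ini y s.length = s) : Below s y' y ↔ Cube s (res y) y' :=
  ⟨fun h => res_cube h.2.1 h.1 fun n _ => h.2.2 n, fun h => ⟨h.1, h.2.1, cube_res hy
    (fun p hp => by
      rw [← e] at hp
      obtain ⟨k, -, rfl⟩ := mem_ini.1 hp
      exact ⟨k, rfl⟩) h⟩⟩

theorem Below.mono (h : Below (ini y k) y' y) (hk : s.length ≤ k) (e : ini y s.length = s) :
    Below s y' y := by
  have h₁ := h.1
  rw [length_ini] at h₁
  exact ⟨(ini_eq_iff.2 fun j hj => ini_eq_iff.1 h₁ j (by omega)).trans e, h.2⟩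

theorem sub_cube (h : Cube s R y) (h' : Below s y' y) : Cube s R y' := by
  refine ⟨h'.1, h'.2.1, fun n hn => ?_⟩
  obtain ⟨m, hm⟩ := h'.2.2 n
  have e := agree_of_ini h.1 h'.1
  rw [hm]
  refine h.2.2 m ?_
  by_contra hm'
  have h₁ := h'.2.1.strictMono (show m < n by omega)
  simp only [hm, e m (not_le.1 hm')] at h₁
  exact lt_irrefl _ h₁

theorem tail_cube (h : Cube s R y) (hv : Val y') (hs : Sub y' y) :
    ∃ n₀, ∀ n, n₀ ≤ n → Cube (ini y' n) R y' := by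
  obtain ⟨B, hB⟩ := exists_bound y s.length
  refine ⟨B + 1, fun n hn => ⟨by rw [length_ini], hv, fun j hj => ?_⟩⟩
  rw [length_ini] at hj
  obtain ⟨m, hm⟩ := hs j
  rw [hm]
  refine h.2.2 m ?_
  by_contra hm'
  have h₁ := hB m (not_le.1 hm')
  have h₂ := hv.le_height j
  rw [hm] at h₂
  omega

theorem cube_closed (h : ∀ n, ∃ y' : g.Yy, Cube s R y' ∧ ini y' n = ini y n) : Cube s R y := by
  refine ⟨?_, fun n => ?_, fun n hn => ?_⟩
  · obtain ⟨y', h₁, h₂⟩ := h s.length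
    exact h₂.symm.trans h₁.1
  · obtain ⟨y', h₁, h₂⟩ := h (n + 1)
    have e := ini_eq_iff.1 h₂
    rw [← e n (by omega), ← ok_congr fun k hk => e k (by omega)]
    exact h₁.2.1 n
  · obtain ⟨y', h₁, h₂⟩ := h (n + 1)
    rw [← ini_eq_iff.1 h₂ n (by omega)]
    exact h₁.2.2 n hn

theorem diag_tip {S : Fn g ℕ g.Rs} (h : ∀ k, RLe (S (k + 1)) (S k)) (ht : Tip s (diag S))
    (hy : Cube s (diag S) y) : Cube s (S (g.lcode s + 1)) y := by
  obtain ⟨h₀, i, hi⟩ := ht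
  have e : s.getD (s.length - 1) default = y (s.length - 1) := by
    conv_lhs => rw [← hy.1, length_ini]
    exact getD_ini _ _ (by omega)
  rw [e] at hi
  obtain ⟨j, -, hj⟩ := mem_diag.1 hi
  have key : ∀ i m, (y (s.length - 1)).2 < m → Mem (diag S) i m →
      Mem (S (g.lcode s + 1)) i m := by
    intro i m h₁ h₂
    obtain ⟨j', rfl, rfl⟩ := mem_diag.1 h₂
    rw [← hj, (dseq_mono S).lt_iff_lt] at h₁
    obtain ⟨a, rfl⟩ : ∃ a, j' = a + 1 := ⟨j' - 1, by omega⟩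
    have h₃ : (y (s.length - 1)).2 ≤ dseq S a := hj ▸ (dseq_mono S).monotone (by omega)
    have h₄ := hy.2.1.le_height (s.length - 1)
    refine rle_of_le h ?_ _ _ (dseq_succ S a).2
    conv_lhs => rw [← hy.1]
    refine lcode_le_kb (by omega) fun k hk => ?_
    have h₅ : (y k).2 ≤ (y (s.length - 1)).2 := hy.2.1.strictMono.monotone (by omega)
    exact ⟨(hy.2.1 k).1.trans (h₅.trans h₃), h₅.trans h₃⟩
  exact ⟨hy.1, hy.2.1, fun n hn => key _ _ ((hy.2.1 n).2.1 _ (by omega)) (hy.2.2 n hn)⟩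

theorem tip_ini (h : Cube s H y) (hn : s.length < n) : Tip (ini y n) H := by
  refine ⟨by rw [length_ini]; omega, (y (n - 1)).1, ?_⟩
  rw [length_ini, getD_ini _ _ (by omega)]
  exact h.2.2 (n - 1) (by omega)

/-- The side chosen by the pigeonhole operation. -/
def pigT (B : Fn g St Prop) (s : St) (R : g.Rs) : Prop :=
  Inf fun m => Mem R (lab s.length) m ∧ B (s ++ [(lab s.length, m)])

@[fun_prop] theorem tm_pigT {Γ : Type*} [Cd g Γ] {B : Γ → Fn g St Prop} {s : Γ → St}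
    {R : Γ → g.Rs} (h₀ : g.Tm B) (h₁ : g.Tm s) (h₂ : g.Tm R) :
    g.Tm fun x => pigT (B x) (s x) (R x) := by
  unfold pigT
  fun_prop

/-- The pigeonhole operation. -/
noncomputable def pig (B : Fn g St Prop) (s : St) (R : g.Rs) : g.Rs :=
  ⟨fun p => Mem R p.1 p.2 ∧ ((Inf fun k => Mem R p.1 k ∧ (B (s ++ [(p.1, k)]) ↔ pigT B s R)) →
    (B (s ++ [(p.1, p.2)]) ↔ pigT B s R)), by fun_prop⟩

@[fun_prop] theorem tm_pig {Γ : Type*} [Cd g Γ] {B : Γ → Fn g St Prop} {s : Γ → St}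
    {R : Γ → g.Rs} (h₀ : g.Tm B) (h₁ : g.Tm s) (h₂ : g.Tm R) :
    g.Tm fun x => pig (B x) (s x) (R x) := by
  unfold pig
  fun_prop

theorem mem_pig {B : Fn g St Prop} {i m : ℕ} : Mem (pig B s R) i m ↔
    Mem R i m ∧ ((Inf fun k => Mem R i k ∧ (B (s ++ [(i, k)]) ↔ pigT B s R)) →
      (B (s ++ [(i, m)]) ↔ pigT B s R)) :=
  mem_iff_of_inf ((inf_mem R i).shr fun k => (B (s ++ [(i, k)]) ↔ pigT B s R))

theorem pig_le (B : Fn g St Prop) (s : St) (R : g.Rs) : RLe (pig B s R) R :=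
  fun _ _ h => (mem_pig.1 h).1

theorem pig_iff {B : Fn g St Prop} (hy : Cube s (pig B s R) y) :
    B (ini y (s.length + 1)) ↔ pigT B s R := by
  have hI := hy.2.2 _ le_rfl
  rw [ini_succ, hy.1]
  refine (mem_pig.1 hI).2 ?_
  rw [hy.2.1.col]
  by_cases hT : pigT B s R
  · exact Inf.imp hT fun m hm => ⟨hm.1, iff_of_true hm.2 hT⟩
  · exact ((inf_mem R _).of_not hT).imp fun m hm => ⟨hm.1, iff_of_false hm.2 hT⟩

theorem pig_spec (B : Fn g St Prop) (s : St) (R : g.Rs) :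
    (∀ y, Cube s (pig B s R) y → B (ini y (s.length + 1))) ∨
      ∀ y, Cube s (pig B s R) y → ¬ B (ini y (s.length + 1)) := by
  by_cases hT : pigT B s R
  exacts [Or.inl fun _ hy => (pig_iff hy).2 hT, Or.inr fun _ hy h => hT ((pig_iff hy).1 h)]

variable {S S' S'' : g.Rs}

theorem sle_of_forall (h : ∀ p, S p → S' p) : SLe S S' :=
  fun _ e => (e 0).elim fun _ hm => hm.2.2 (h _ hm.2.1)

theorem sle_of_sub (h : Sub y' y) : SLe (rng y') (rng y) :=
  sle_of_forall fun _ ⟨n, hn⟩ => (h n).imp fun _ hm => hm.symm.trans hn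

theorem exists_res_of_pos (h : Pos S) : ∃ R : g.Rs, ∀ y, Cube [] R y → ∀ n, S (y n) :=
  ⟨S, fun _ hy n => (mem_iff_of_inf (h _)).1 (hy.2.2 n (Nat.zero_le n))⟩

theorem below_of_pos (hy : Val y) (h : Pos S) (h' : SLe S (rng y)) (k : ℕ) :
    ∃ y', Below (ini y k) y' y ∧ SLe (rng y') S := by
  let R : g.Rs := ⟨fun p => S p ∧ rng y p, by fun_prop⟩
  have hR : ∀ i, Inf fun j => R (i, j) := fun i =>
    ((h i).of_not (h' i)).imp fun m hm => ⟨hm.1, not_not.1 hm.2⟩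
  have hc := lm_cube hy k R
  have e : ∀ m < k, lm (ini y k) R m = y m := ini_eq_iff.1 (by simpa using hc.1)
  have key : ∀ n, k ≤ n → R (lm (ini y k) R n) := fun n hn =>
    (mem_iff_of_inf (hR _)).1 (hc.2.2 n (by simpa using hn))
  refine ⟨_, ⟨hc.1, hc.2.1, fun n => ?_⟩, fun c hi => ?_⟩
  · rcases Nat.lt_or_ge n k with hn | hn
    · exact ⟨n, e n hn⟩
    · exact (key n hn).2.imp fun _ => Eq.symm
  · obtain ⟨j, hj, ⟨n, hn⟩, hS⟩ := hi (y k).2
    rcases Nat.lt_or_ge n k with hk | hk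
    · have h2 : (y n).2 < (y k).2 := hy.strictMono hk
      rw [← e n hk, hn] at h2
      exact absurd h2 (not_lt.2 hj)
    · exact hS (hn ▸ (key n hk).1)

end Mdl.Pw

end Pool.Agent.MP_09d684_lc
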